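import Mathlib

/-!
# Project PS: power series with bounded coefficients, the exponential formula
-/

set_option autoImplicit false

open Finset Filter Topology

namespace Pool.Agent.Q222.PSC

/-- the power series -/
noncomputable def Ls (r : ℕ → ℂ) (z : ℂ) : ℂ := ∑' k : ℕ, r k * z ^ k

theorem sum_n_geo {ρ : ℝ} (h0 : 0 ≤ ρ) (h1 : ρ < 1) : Summable fun n : ℕ => ((n : ℝ) + 1) * ρ ^ n := by
  have e1 := summable_pow_mul_geometric_of_norm_lt_one (R := ℝ) 1 (r := ρ)
    (by rwa [Real.norm_of_nonneg h0])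
  refine (e1.add (summable_geometric_of_lt_one h0 h1)).congr fun k => ?_
  ring

theorem sum_n_geo' {ρ : ℝ} (h0 : 0 ≤ ρ) (h1 : ρ < 1) : Summable fun n : ℕ => (n : ℝ) * ρ ^ (n - 1) := by
  rw [← summable_nat_add_iff 1]
  refine (sum_n_geo h0 h1).congr fun n => ?_
  rw [Nat.add_sub_cancel]
  push_cast
  ring

theorem Ls_summable {r : ℕ → ℂ} {M : ℝ} (hr : ∀ k, ‖r k‖ ≤ M) {z : ℂ} (hz : ‖z‖ < 1) :
    Summable fun k => ‖r k * z ^ k‖ := by
  refine Summable.of_nonneg_of_le (fun k => norm_nonneg _) (fun k => ?_)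
    ((summable_geometric_of_lt_one (norm_nonneg z) hz).mul_left M)
  rw [norm_mul, norm_pow]
  exact mul_le_mul_of_nonneg_right (hr k) (by positivity)

theorem Ls_deriv {r : ℕ → ℂ} {M : ℝ} (hr : ∀ k, ‖r k‖ ≤ M) {z : ℂ} (hz : ‖z‖ < 1) :
    HasDerivAt (Ls r) (∑' k : ℕ, (((k : ℂ) + 1) * r (k + 1)) * z ^ k) z := by
  have hM : 0 ≤ M := (norm_nonneg _).trans (hr 0)
  obtain ⟨ρ, hzρ, hρ1⟩ := exists_between hz
  have hρ0 : 0 ≤ ρ := (norm_nonneg z).trans hzρ.le
  have h1 := hasDerivAt_tsum_of_isPreconnected (𝕜 := ℂ)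
    (g := fun (n : ℕ) (z : ℂ) => r n * z ^ n) (g' := fun (n : ℕ) (z : ℂ) => r n * ((n : ℂ) * z ^ (n - 1)))
    (u := fun n : ℕ => M * ((n : ℝ) * ρ ^ (n - 1))) (t := Metric.ball (0 : ℂ) ρ) (y₀ := 0) (y := z)
    ((sum_n_geo' hρ0 hρ1).mul_left M) Metric.isOpen_ball
    (convex_ball (0 : ℂ) ρ).isPreconnected
    (fun n y _ => (hasDerivAt_pow n y).const_mul (r n))
    (fun n y hy => by
      rw [mem_ball_zero_iff] at hy
      rw [norm_mul, norm_mul, norm_pow, Complex.norm_natCast]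
      refine mul_le_mul (hr n) ?_ (by positivity) hM
      exact mul_le_mul_of_nonneg_left (pow_le_pow_left₀ (norm_nonneg _) hy.le _) (Nat.cast_nonneg n))
    (by
      rw [mem_ball_zero_iff]
      simpa using (norm_nonneg z).trans_lt hzρ)
    (by
      have := (Ls_summable hr (z := 0) (by simp)).of_norm
      exact this)
    (by
      rw [mem_ball_zero_iff]
      exact hzρ)
  refine h1.congr_deriv ?_
  have hs : Summable fun n : ℕ => r n * ((n : ℂ) * z ^ (n - 1)) := by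
    refine Summable.of_norm_bounded ((sum_n_geo' (norm_nonneg z) hz).mul_left M) fun n => ?_
    rw [norm_mul, norm_mul, norm_pow, Complex.norm_natCast]
    exact mul_le_mul_of_nonneg_right (hr n) (by positivity)
  rw [hs.tsum_eq_zero_add]
  simp only [Nat.cast_zero, zero_mul, mul_zero, zero_add]
  refine tsum_congr fun n => ?_
  rw [Nat.add_sub_cancel]
  push_cast
  ring

theorem Icc_anti (a r : ℕ → ℂ) (n : ℕ) : ∑ j ∈ Icc 1 (n + 1), a j * r (n + 1 - j) =
    ∑ p ∈ antidiagonal n, a (p.1 + 1) * r p.2 := by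
  rw [Finset.Nat.sum_antidiagonal_eq_sum_range_succ (fun i j => a (i + 1) * r j)]
  refine sum_nbij' (fun j => j - 1) (fun j => j + 1) ?_ ?_ ?_ ?_ ?_
  · intro j hj
    rw [mem_Icc] at hj
    rw [mem_range]
    omega
  · intro j hj
    rw [mem_range] at hj
    rw [mem_Icc]
    omega
  · intro j hj
    rw [mem_Icc] at hj
    show j - 1 + 1 = j
    omega
  · intro j _
    show j + 1 - 1 = j
    omega
  · intro j hj
    rw [mem_Icc] at hj
    show a j * r (n + 1 - j) = a (j - 1 + 1) * r (n - (j - 1))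
    have e1 : j - 1 + 1 = j := by omega
    have e2 : n - (j - 1) = n + 1 - j := by omega
    rw [e1, e2]

/-- **the exponential formula** -/
theorem exp_formula {r a : ℕ → ℂ} {M : ℝ} (hr : ∀ k, ‖r k‖ ≤ M) (ha : ∀ k, ‖a k‖ ≤ M) (hr0 : r 0 = 1)
    (hrec : ∀ n : ℕ, 1 ≤ n → (n : ℂ) * r n = ∑ j ∈ Icc 1 n, a j * r (n - j)) {z : ℂ} (hz : ‖z‖ < 1) :
    Complex.exp (Ls (fun k => a k / k) z) = Ls r z := by
  have hM : 0 ≤ M := (norm_nonneg _).trans (hr 0)
  have hg : ∀ k : ℕ, ‖a k / (k : ℂ)‖ ≤ M := by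
    intro k
    rcases Nat.eq_zero_or_pos k with h | h
    · rw [h]
      simpa using hM
    · rw [norm_div, Complex.norm_natCast]
      have : (1 : ℝ) ≤ k := by exact_mod_cast h
      exact (div_le_self (norm_nonneg _) this).trans (ha k)
  have hdL : ∀ w : ℂ, ‖w‖ < 1 → HasDerivAt (Ls r) (Ls (fun k => a (k + 1)) w * Ls r w) w := by
    intro w hw
    refine (Ls_deriv hr hw).congr_deriv ?_
    unfold Ls
    rw [tsum_mul_tsum_eq_tsum_sum_antidiagonal_of_summable_norm
      (Ls_summable (fun k => ha (k + 1)) hw) (Ls_summable hr hw)]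
    refine tsum_congr fun n => ?_
    have e1 := hrec (n + 1) (by omega)
    push_cast at e1
    rw [e1, Icc_anti, sum_mul]
    refine sum_congr rfl fun p hp => ?_
    rw [HasAntidiagonal.mem_antidiagonal] at hp
    rw [← hp, pow_add]
    ring
  have hdG : ∀ w : ℂ, ‖w‖ < 1 → HasDerivAt (Ls (fun k => a k / k)) (Ls (fun k => a (k + 1)) w) w := by
    intro w hw
    refine (Ls_deriv hg hw).congr_deriv ?_
    unfold Ls
    refine tsum_congr fun n => ?_
    have hn : ((n : ℂ) + 1) ≠ 0 := by exact_mod_cast (by omega : n + 1 ≠ 0)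
    push_cast
    rw [mul_div_cancel₀ _ hn]
  obtain ⟨Φ, hΦ⟩ : ∃ Φ : ℂ → ℂ, Φ = fun w => Ls r w * Complex.exp (-(Ls (fun k => a k / k) w)) := ⟨_, rfl⟩
  have hdΦ : ∀ w : ℂ, ‖w‖ < 1 → HasDerivAt Φ 0 w := by
    intro w hw
    rw [hΦ]
    refine ((hdL w hw).mul (hdG w hw).neg.cexp).congr_deriv ?_
    ring
  have hconst : Φ z = Φ 0 := by
    refine Metric.isOpen_ball.is_const_of_deriv_eq_zero (s := Metric.ball (0 : ℂ) 1)
      (convex_ball (0 : ℂ) 1).isPreconnected (fun w hw => ?_) (fun w hw => ?_) ?_ ?_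
    · rw [mem_ball_zero_iff] at hw
      exact (hdΦ w hw).differentiableAt.differentiableWithinAt
    · rw [mem_ball_zero_iff] at hw
      exact (hdΦ w hw).deriv
    · rwa [mem_ball_zero_iff]
    · rw [mem_ball_zero_iff]
      simp
  have h0 : ∀ b : ℕ → ℂ, Ls b 0 = b 0 := by
    intro b
    unfold Ls
    rw [tsum_eq_single 0]
    · simp
    · intro n hn
      rw [zero_pow hn, mul_zero]
  have hΦ0 : Φ 0 = 1 := by
    rw [hΦ]
    beta_reduce
    rw [h0, h0, hr0]
    simp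
  rw [hΦ0, hΦ] at hconst
  beta_reduce at hconst
  have h2 : Complex.exp (-(Ls (fun k => a k / k) z)) * Complex.exp (Ls (fun k => a k / k) z) = 1 := by
    rw [← Complex.exp_add, neg_add_cancel, Complex.exp_zero]
  calc Complex.exp (Ls (fun k => a k / k) z) =
        (Ls r z * Complex.exp (-(Ls (fun k => a k / k) z))) * Complex.exp (Ls (fun k => a k / k) z) := by
        rw [hconst, one_mul]
    _ = Ls r z := by rw [mul_assoc, h2, mul_one]

end Pool.Agent.Q222.PSC
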