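import Mathlib

/-!
# Project PS, job OPM: the matrix lemma, general part
-/

set_option autoImplicit false

open Finset ComplexConjugate

namespace Pool.Agent.Q222.PSC

/-! ### scalar sums -/

theorem sum_exp_le {τ : ℝ} (hτ : 0 < τ) (N : ℕ) : ∑ a ∈ Icc 1 N, Real.exp (-(τ * a)) ≤ 1 / τ := by
  have h : ∀ N : ℕ, ∑ a ∈ Icc 1 N, Real.exp (-(τ * a)) ≤ 1 / τ * (1 - Real.exp (-(τ * N))) := by
    intro N
    induction N with
    | zero => simp
    | succ N ih =>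
      rw [← insert_Icc_right_eq_Icc_add_one (by omega), sum_insert (by simp)]
      have h1 := Real.add_one_le_exp τ
      have h2 : Real.exp (-(τ * N)) = Real.exp τ * Real.exp (-(τ * ((N + 1 : ℕ) : ℝ))) := by
        rw [← Real.exp_add]
        congr 1
        push_cast
        ring
      have h3 : Real.exp (-(τ * ((N + 1 : ℕ) : ℝ))) ≤
          1 / τ * (Real.exp (-(τ * N)) - Real.exp (-(τ * ((N + 1 : ℕ) : ℝ)))) := by
        rw [h2, one_div, inv_mul_eq_div, le_div_iff₀ hτ]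
        have h4 := Real.exp_pos (-(τ * ((N + 1 : ℕ) : ℝ)))
        nlinarith
      have h5 : 1 / τ * (1 - Real.exp (-(τ * ((N + 1 : ℕ) : ℝ)))) =
          1 / τ * (Real.exp (-(τ * N)) - Real.exp (-(τ * ((N + 1 : ℕ) : ℝ)))) +
          1 / τ * (1 - Real.exp (-(τ * N))) := by ring
      rw [h5]
      exact add_le_add h3 ih
  refine (h N).trans ?_
  have h1 := Real.exp_pos (-(τ * N))
  have h2 : (0 : ℝ) < 1 / τ := by positivity
  nlinarith

theorem sq_exp_le {x : ℝ} (hx : 0 ≤ x) : x ^ 2 * Real.exp (-x) ≤ 2 := by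
  have h1 := Real.quadratic_le_exp_of_nonneg hx
  have h2 : x ^ 2 ≤ 2 * Real.exp x := by nlinarith
  calc x ^ 2 * Real.exp (-x) ≤ 2 * Real.exp x * Real.exp (-x) :=
        mul_le_mul_of_nonneg_right h2 (Real.exp_pos _).le
    _ = 2 := by rw [mul_assoc, ← Real.exp_add, add_neg_cancel, Real.exp_zero, mul_one]

theorem n_sq_exp {c y : ℝ} (hc : 0 < c) (hy : 0 < y) (n : ℕ) :
    (n : ℝ) ^ 2 * Real.exp (-(c * n / y)) ≤ 2 * (y / c) ^ 2 := by
  have h1 := sq_exp_le (x := c * n / y) (by positivity)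
  have h2 : (n : ℝ) ^ 2 = (y / c) ^ 2 * (c * n / y) ^ 2 := by
    field_simp
  rw [h2, mul_assoc]
  have h3 : (0 : ℝ) ≤ (y / c) ^ 2 := by positivity
  nlinarith

theorem sum_sq_exp {c y : ℝ} (hc : 0 < c) (hy : 0 < y) (N : ℕ) :
    ∑ a ∈ Icc 1 N, (a : ℝ) ^ 2 * Real.exp (-(c * a / y)) ≤ 16 * (y / c) ^ 3 := by
  have h1 : ∀ a ∈ Icc 1 N, (a : ℝ) ^ 2 * Real.exp (-(c * a / y)) ≤
      8 * (y / c) ^ 2 * Real.exp (-(c / (2 * y) * a)) := by
    intro a _
    have h2 := n_sq_exp (c := c / 2) (by positivity) hy a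
    have h3 : Real.exp (-(c * a / y)) = Real.exp (-(c / 2 * a / y)) * Real.exp (-(c / (2 * y) * a)) := by
      rw [← Real.exp_add]
      congr 1
      field_simp
      ring
    rw [h3, ← mul_assoc]
    refine mul_le_mul_of_nonneg_right (h2.trans (le_of_eq ?_)) (Real.exp_pos _).le
    field_simp
    norm_num
  refine (sum_le_sum h1).trans ?_
  rw [← mul_sum]
  have h4 := sum_exp_le (τ := c / (2 * y)) (by positivity) N
  have h5 : (0 : ℝ) ≤ 8 * (y / c) ^ 2 := by positivity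
  refine (mul_le_mul_of_nonneg_left h4 h5).trans (le_of_eq ?_)
  field_simp
  norm_num

theorem sum_inv_sqrt (N : ℕ) : ∑ a ∈ Icc 1 N, 1 / Real.sqrt a ≤ 2 * Real.sqrt N := by
  induction N with
  | zero => simp
  | succ N ih =>
    rw [← insert_Icc_right_eq_Icc_add_one (by omega), sum_insert (by simp)]
    have h1 : 1 / Real.sqrt ((N + 1 : ℕ) : ℝ) ≤ 2 * (Real.sqrt ((N + 1 : ℕ) : ℝ) - Real.sqrt N) := by
      have h0 : (0 : ℝ) < Real.sqrt ((N + 1 : ℕ) : ℝ) := Real.sqrt_pos.2 (by positivity)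
      have h2 : Real.sqrt N ≤ Real.sqrt ((N + 1 : ℕ) : ℝ) :=
        Real.sqrt_le_sqrt (by exact_mod_cast Nat.le_succ N)
      have h3 : Real.sqrt ((N + 1 : ℕ) : ℝ) ^ 2 = N + 1 := by
        rw [Real.sq_sqrt (by positivity)]
        push_cast
        ring
      have h4 : Real.sqrt (N : ℝ) ^ 2 = N := Real.sq_sqrt (by positivity)
      rw [div_le_iff₀ h0]
      nlinarith [Real.sqrt_nonneg (N : ℝ)]
    linarith

theorem sum_conv {n : ℕ} (hn : 1 ≤ n) :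
    ∑ a ∈ Icc 1 (n - 1), 1 / (Real.sqrt a * Real.sqrt ((n - a : ℕ) : ℝ)) ≤ 4 := by
  have hn0 : (0 : ℝ) < Real.sqrt n := Real.sqrt_pos.2 (by exact_mod_cast hn)
  have h1 : ∀ a ∈ Icc 1 (n - 1), 1 / (Real.sqrt a * Real.sqrt ((n - a : ℕ) : ℝ)) ≤
      1 / Real.sqrt n * (1 / Real.sqrt a + 1 / Real.sqrt ((n - a : ℕ) : ℝ)) := by
    intro a ha
    rw [mem_Icc] at ha
    have ha0 : (0 : ℝ) < a := by exact_mod_cast ha.1
    have hb0 : (0 : ℝ) < ((n - a : ℕ) : ℝ) := by exact_mod_cast (by omega : 0 < n - a)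
    have h2 : (0 : ℝ) < Real.sqrt a := Real.sqrt_pos.2 ha0
    have h3 : (0 : ℝ) < Real.sqrt ((n - a : ℕ) : ℝ) := Real.sqrt_pos.2 hb0
    have h4 : Real.sqrt n ≤ Real.sqrt a + Real.sqrt ((n - a : ℕ) : ℝ) := by
      have h5 : (n : ℝ) = a + ((n - a : ℕ) : ℝ) := by
        rw [← Nat.cast_add]
        congr 1
        omega
      rw [h5]
      apply Real.sqrt_le_iff.2 ⟨by positivity, ?_⟩
      have e1 := Real.sq_sqrt ha0.le
      have e2 := Real.sq_sqrt hb0.le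
      nlinarith
    have h5 : 1 / Real.sqrt n * (1 / Real.sqrt a + 1 / Real.sqrt ((n - a : ℕ) : ℝ)) =
        (Real.sqrt a + Real.sqrt ((n - a : ℕ) : ℝ)) /
          (Real.sqrt n * (Real.sqrt a * Real.sqrt ((n - a : ℕ) : ℝ))) := by
      field_simp
      ring
    rw [h5, div_le_div_iff₀ (by positivity) (by positivity), one_mul]
    exact mul_le_mul_of_nonneg_right h4 (by positivity)
  refine (sum_le_sum h1).trans ?_
  rw [← mul_sum, sum_add_distrib]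
  have h6 : ∑ a ∈ Icc 1 (n - 1), 1 / Real.sqrt ((n - a : ℕ) : ℝ) =
      ∑ a ∈ Icc 1 (n - 1), 1 / Real.sqrt a := by
    refine sum_nbij' (fun a => n - a) (fun a => n - a) ?_ ?_ ?_ ?_ ?_
    · intro a ha
      rw [mem_Icc] at ha ⊢
      omega
    · intro a ha
      rw [mem_Icc] at ha ⊢
      omega
    · intro a ha
      rw [mem_Icc] at ha
      show n - (n - a) = a
      omega
    · intro a ha
      rw [mem_Icc] at ha
      show n - (n - a) = a
      omega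
    · intro a _
      rfl
  rw [h6]
  have h7 := sum_inv_sqrt (n - 1)
  have h8 : Real.sqrt ((n - 1 : ℕ) : ℝ) ≤ Real.sqrt n :=
    Real.sqrt_le_sqrt (by exact_mod_cast Nat.sub_le n 1)
  rw [one_div, inv_mul_le_iff₀ hn0]
  linarith

/-! ### matrices -/

variable {ι : Type} [Fintype ι]

/-- the squared norm -/
noncomputable def nq (c : ι → ℂ) : ℝ := ∑ i, ‖c i‖ ^ 2

/-- the bilinear form -/
noncomputable def bf (M : ι → ι → ℂ) (u v : ι → ℂ) : ℂ := ∑ i, ∑ j, u i * M i j * v j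

/-- the bilinear form is bounded -/
def Bd (M : ι → ι → ℂ) (κ : ℝ) : Prop :=
  ∀ u v : ι → ℂ, ‖bf M u v‖ ≤ κ * Real.sqrt (nq u) * Real.sqrt (nq v)

theorem nq_nonneg (c : ι → ℂ) : 0 ≤ nq c := sum_nonneg fun _ _ => sq_nonneg _

theorem Bd.row {M : ι → ι → ℂ} {κ : ℝ} (h : Bd M κ) (hκ : 0 ≤ κ) (i : ι) :
    ∑ j, ‖M i j‖ ^ 2 ≤ κ ^ 2 := by
  classical
  have h1 := h (Pi.single i 1) (fun j => conj (M i j))
  have e1 : bf M (Pi.single i 1) (fun j => conj (M i j)) = ((∑ j, ‖M i j‖ ^ 2 : ℝ) : ℂ) := by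
    unfold bf
    rw [Finset.sum_eq_single i]
    · push_cast
      refine sum_congr rfl fun j _ => ?_
      rw [Pi.single_eq_same, one_mul, Complex.mul_conj']
    · intro k _ hk
      refine sum_eq_zero fun j _ => ?_
      rw [Pi.single_eq_of_ne hk, zero_mul, zero_mul]
    · intro hi
      exact absurd (mem_univ i) hi
  have e2 : nq (Pi.single i (1 : ℂ)) = 1 := by
    unfold nq
    rw [Finset.sum_eq_single i]
    · rw [Pi.single_eq_same]
      norm_num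
    · intro k _ hk
      rw [Pi.single_eq_of_ne hk]
      norm_num
    · intro hi
      exact absurd (mem_univ i) hi
  have e3 : nq (fun j => conj (M i j)) = ∑ j, ‖M i j‖ ^ 2 := by
    unfold nq
    refine sum_congr rfl fun j _ => ?_
    rw [Complex.norm_conj]
  obtain ⟨s, hs⟩ : ∃ s, s = ∑ j, ‖M i j‖ ^ 2 := ⟨_, rfl⟩
  have hs0 : 0 ≤ s := by
    rw [hs]
    exact sum_nonneg fun _ _ => sq_nonneg _
  rw [e1, e2, e3, ← hs, Complex.norm_real, Real.norm_of_nonneg hs0, Real.sqrt_one, mul_one] at h1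
  rw [← hs]
  rcases hs0.eq_or_lt with h0 | h0
  · rw [← h0]
    positivity
  · have h2 : 0 < Real.sqrt s := Real.sqrt_pos.2 h0
    have h3 := Real.mul_self_sqrt hs0
    have h4 : Real.sqrt s ≤ κ := by
      by_contra hc
      rw [not_le] at hc
      nlinarith
    nlinarith

theorem Bd.entry {M : ι → ι → ℂ} {κ : ℝ} (h : Bd M κ) (hκ : 0 ≤ κ) (i j : ι) : ‖M i j‖ ≤ κ := by
  have h1 := h.row hκ i
  have h2 : ‖M i j‖ ^ 2 ≤ κ ^ 2 :=
    (single_le_sum (f := fun j => ‖M i j‖ ^ 2) (fun _ _ => sq_nonneg _) (mem_univ j)).trans h1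
  exact abs_le_of_sq_le_sq' h2 hκ |>.2

theorem bf_swap (M : ι → ι → ℂ) (u v : ι → ℂ) : bf (fun i j => M j i) u v = bf M v u := by
  unfold bf
  rw [sum_comm]
  refine sum_congr rfl fun i _ => sum_congr rfl fun j _ => ?_
  ring

theorem Bd.swap {M : ι → ι → ℂ} {κ : ℝ} (h : Bd M κ) : Bd (fun i j => M j i) κ := by
  intro u v
  rw [bf_swap]
  have := h v u
  rw [mul_assoc, mul_comm (Real.sqrt (nq v)), ← mul_assoc] at this
  exact this

/-- **Schur's test** -/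
theorem schur {M : ι → ι → ℂ} {S : ℝ} (hS : 0 ≤ S) (h1 : ∀ i, ∑ j, ‖M i j‖ ≤ S)
    (h2 : ∀ j, ∑ i, ‖M i j‖ ≤ S) : Bd M S := by
  intro u v
  have e1 : ‖bf M u v‖ ≤ ∑ p : ι × ι, (Real.sqrt ‖M p.1 p.2‖ * ‖u p.1‖) *
      (Real.sqrt ‖M p.1 p.2‖ * ‖v p.2‖) := by
    unfold bf
    rw [Fintype.sum_prod_type]
    refine (norm_sum_le _ _).trans (sum_le_sum fun i _ => (norm_sum_le _ _).trans (le_of_eq ?_))
    refine sum_congr rfl fun j _ => ?_
    rw [norm_mul, norm_mul]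
    have := Real.mul_self_sqrt (norm_nonneg (M i j))
    calc ‖u i‖ * ‖M i j‖ * ‖v j‖ = (Real.sqrt ‖M i j‖ * Real.sqrt ‖M i j‖) * ‖u i‖ * ‖v j‖ := by
          rw [this]
          ring
      _ = _ := by ring
  refine e1.trans ((Real.sum_mul_le_sqrt_mul_sqrt _ _ _).trans ?_)
  have e2 : ∑ p : ι × ι, (Real.sqrt ‖M p.1 p.2‖ * ‖u p.1‖) ^ 2 ≤ S * nq u := by
    rw [Fintype.sum_prod_type]
    unfold nq
    rw [mul_sum]
    refine sum_le_sum fun i _ => ?_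
    calc ∑ j, (Real.sqrt ‖M i j‖ * ‖u i‖) ^ 2 = (∑ j, ‖M i j‖) * ‖u i‖ ^ 2 := by
          rw [sum_mul]
          refine sum_congr rfl fun j _ => ?_
          rw [mul_pow, Real.sq_sqrt (norm_nonneg _)]
      _ ≤ S * ‖u i‖ ^ 2 := mul_le_mul_of_nonneg_right (h1 i) (sq_nonneg _)
  have e3 : ∑ p : ι × ι, (Real.sqrt ‖M p.1 p.2‖ * ‖v p.2‖) ^ 2 ≤ S * nq v := by
    rw [Fintype.sum_prod_type_right]
    unfold nq
    rw [mul_sum]
    refine sum_le_sum fun j _ => ?_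
    calc ∑ i, (Real.sqrt ‖M i j‖ * ‖v j‖) ^ 2 = (∑ i, ‖M i j‖) * ‖v j‖ ^ 2 := by
          rw [sum_mul]
          refine sum_congr rfl fun i _ => ?_
          rw [mul_pow, Real.sq_sqrt (norm_nonneg _)]
      _ ≤ S * ‖v j‖ ^ 2 := mul_le_mul_of_nonneg_right (h2 j) (sq_nonneg _)
  calc _ ≤ Real.sqrt (S * nq u) * Real.sqrt (S * nq v) :=
        mul_le_mul (Real.sqrt_le_sqrt e2) (Real.sqrt_le_sqrt e3) (Real.sqrt_nonneg _)
          (Real.sqrt_nonneg _)
    _ = S * Real.sqrt (nq u) * Real.sqrt (nq v) := by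
        rw [Real.sqrt_mul hS, Real.sqrt_mul hS]
        have := Real.mul_self_sqrt hS
        calc _ = (Real.sqrt S * Real.sqrt S) * Real.sqrt (nq u) * Real.sqrt (nq v) := by ring
          _ = _ := by rw [this]

theorem bf_add (M N : ι → ι → ℂ) (u v : ι → ℂ) :
    bf (fun i j => M i j + N i j) u v = bf M u v + bf N u v := by
  unfold bf
  rw [← sum_add_distrib]
  refine sum_congr rfl fun i _ => ?_
  rw [← sum_add_distrib]
  refine sum_congr rfl fun j _ => ?_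
  ring

theorem Bd.add {M N : ι → ι → ℂ} {κ μ : ℝ} (h : Bd M κ) (h' : Bd N μ) :
    Bd (fun i j => M i j + N i j) (κ + μ) := by
  intro u v
  rw [bf_add]
  refine (norm_add_le _ _).trans ((add_le_add (h u v) (h' u v)).trans (le_of_eq ?_))
  ring

theorem bf_smul (c : ℂ) (M : ι → ι → ℂ) (u v : ι → ℂ) :
    bf (fun i j => c * M i j) u v = c * bf M u v := by
  unfold bf
  rw [mul_sum]
  refine sum_congr rfl fun i _ => ?_
  rw [mul_sum]
  refine sum_congr rfl fun j _ => ?_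
  ring

theorem Bd.smul {M : ι → ι → ℂ} {κ : ℝ} (h : Bd M κ) (c : ℂ) : Bd (fun i j => c * M i j) (‖c‖ * κ) := by
  intro u v
  rw [bf_smul, norm_mul]
  refine (mul_le_mul_of_nonneg_left (h u v) (norm_nonneg c)).trans (le_of_eq ?_)
  ring

theorem Bd.zero : Bd (fun _ _ : ι => (0 : ℂ)) 0 := by
  intro u v
  unfold bf
  simp

theorem Bd.sum {α : Type} (s : Finset α) {M : α → ι → ι → ℂ} {κ : α → ℝ} (h : ∀ a ∈ s, Bd (M a) (κ a)) :
    Bd (fun i j => ∑ a ∈ s, M a i j) (∑ a ∈ s, κ a) := by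
  classical
  induction s using Finset.induction_on with
  | empty =>
    simp only [sum_empty]
    exact Bd.zero
  | insert a s ha ih =>
    have h1 := (h a (mem_insert_self a s)).add (ih fun b hb => h b (mem_insert_of_mem hb))
    simp only [sum_insert ha]
    exact h1

theorem Bd.mono {M : ι → ι → ℂ} {κ μ : ℝ} (h : Bd M κ) (hκ : κ ≤ μ) : Bd M μ := fun u v =>
  (h u v).trans (mul_le_mul_of_nonneg_right (mul_le_mul_of_nonneg_right hκ (Real.sqrt_nonneg _))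
    (Real.sqrt_nonneg _))

/-! ### the bootstrap -/

/-- the rows -/
theorem rows {a x : ℕ → ι → ι → ℂ} {C K₁ : ℝ} {y : ℕ} (hC : 0 < C) (hK : 0 < K₁) (hy : 1 ≤ y)
    (h1 : ∀ n : ℕ, 1 ≤ n → ∀ i j, (n : ℂ) * a n i j = (n : ℂ) * x n i j -
      ∑ b ∈ Icc 1 (n - 1), a b i j * a (n - b) i j)
    (h2 : ∀ n : ℕ, 1 ≤ n → Bd (x n) (K₁ * y / n)) (h3 : ∀ n : ℕ, 1 ≤ n → Bd (a n) C)
    (h4 : ∀ n : ℕ, 1 ≤ n → ∀ i j, ‖a n i j‖ ≤ C * y / n) (n : ℕ) (hn : 1 ≤ n) (i : ι) :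
    ∑ j, ‖a n i j - x n i j‖ ≤ 4 * (C ^ 2 + 2 * K₁ ^ 2 + 2 * (C + K₁) * C ^ 2) * y / n := by
  have hy0 : (0 : ℝ) < y := by exact_mod_cast hy
  -- the difference
  have hdiff : ∀ n : ℕ, 1 ≤ n → ∀ j, ‖a n i j - x n i j‖ ≤
      1 / n * ∑ b ∈ Icc 1 (n - 1), ‖a b i j‖ * ‖a (n - b) i j‖ := by
    intro n hn j
    have hn0 : (0 : ℝ) < n := by exact_mod_cast hn
    have hnc : (n : ℂ) ≠ 0 := by exact_mod_cast hn0.ne'
    have e1 : a n i j - x n i j = -((n : ℂ)⁻¹ * ∑ b ∈ Icc 1 (n - 1), a b i j * a (n - b) i j) := by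
      have := h1 n hn i j
      field_simp
      linear_combination this
    rw [e1, norm_neg, norm_mul, norm_inv, Complex.norm_natCast, one_div]
    refine mul_le_mul_of_nonneg_left ((norm_sum_le _ _).trans (le_of_eq ?_)) (by positivity)
    exact sum_congr rfl fun b _ => norm_mul _ _
  -- sums of the rows of the difference
  have hrow : ∀ n : ℕ, 1 ≤ n → ∑ j, ‖a n i j - x n i j‖ ≤
      1 / n * ∑ b ∈ Icc 1 (n - 1), Real.sqrt (∑ j, ‖a b i j‖ ^ 2) * Real.sqrt (∑ j, ‖a (n - b) i j‖ ^ 2) := by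
    intro n hn
    refine (sum_le_sum fun j _ => hdiff n hn j).trans ?_
    rw [← mul_sum, sum_comm]
    refine mul_le_mul_of_nonneg_left (sum_le_sum fun b _ => ?_) (by positivity)
    exact Real.sum_mul_le_sqrt_mul_sqrt _ _ _
  have hrC : ∀ n : ℕ, 1 ≤ n → ∑ j, ‖a n i j‖ ^ 2 ≤ C ^ 2 := fun n hn => (h3 n hn).row hC.le i
  have hrow2 : ∀ n : ℕ, 1 ≤ n → ∑ j, ‖a n i j - x n i j‖ ≤ C ^ 2 := by
    intro n hn
    have hn0 : (0 : ℝ) < n := by exact_mod_cast hn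
    refine (hrow n hn).trans ?_
    have h5 : ∑ b ∈ Icc 1 (n - 1), Real.sqrt (∑ j, ‖a b i j‖ ^ 2) *
        Real.sqrt (∑ j, ‖a (n - b) i j‖ ^ 2) ≤ ∑ b ∈ Icc 1 (n - 1), C ^ 2 := by
      refine sum_le_sum fun b hb => ?_
      rw [mem_Icc] at hb
      have e1 : Real.sqrt (∑ j, ‖a b i j‖ ^ 2) ≤ C := by
        rw [Real.sqrt_le_left hC.le]
        exact hrC b hb.1
      have e2 : Real.sqrt (∑ j, ‖a (n - b) i j‖ ^ 2) ≤ C := by
        rw [Real.sqrt_le_left hC.le]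
        exact hrC (n - b) (by omega)
      calc _ ≤ C * C := mul_le_mul e1 e2 (Real.sqrt_nonneg _) hC.le
        _ = C ^ 2 := by ring
    rw [sum_const, Nat.card_Icc, nsmul_eq_mul] at h5
    have h6 : ((n - 1 + 1 - 1 : ℕ) : ℝ) ≤ n := by exact_mod_cast (by omega : n - 1 + 1 - 1 ≤ n)
    have h7 : ∑ b ∈ Icc 1 (n - 1), Real.sqrt (∑ j, ‖a b i j‖ ^ 2) *
        Real.sqrt (∑ j, ‖a (n - b) i j‖ ^ 2) ≤ n * C ^ 2 :=
      h5.trans (mul_le_mul_of_nonneg_right h6 (sq_nonneg _))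
    rw [one_div, inv_mul_le_iff₀ hn0]
    exact h7
  -- the squares
  obtain ⟨K₃, hK₃⟩ : ∃ K₃, K₃ = C ^ 2 + 2 * K₁ ^ 2 + 2 * (C + K₁) * C ^ 2 := ⟨_, rfl⟩
  have hK30 : 0 < K₃ := by
    rw [hK₃]
    positivity
  have hsq : ∀ n : ℕ, 1 ≤ n → ∑ j, ‖a n i j‖ ^ 2 ≤ K₃ * y / n := by
    intro n hn
    have hn0 : (0 : ℝ) < n := by exact_mod_cast hn
    rcases le_or_gt (n : ℝ) y with hle | hlt
    · refine (hrC n hn).trans ?_
      rw [le_div_iff₀ hn0]
      have h5 : C ^ 2 ≤ K₃ := by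
        rw [hK₃]
        have : 0 ≤ 2 * K₁ ^ 2 + 2 * (C + K₁) * C ^ 2 := by positivity
        linarith
      exact mul_le_mul h5 hle hn0.le hK30.le
    · have hyn : (y : ℝ) / n ≤ 1 := (div_le_one hn0).2 hlt.le
      have hyn0 : 0 < (y : ℝ) / n := by positivity
      have h5 : ∀ j, ‖a n i j‖ ^ 2 ≤ 2 * ‖x n i j‖ ^ 2 + 2 * ‖a n i j - x n i j‖ ^ 2 := by
        intro j
        have h6 : ‖a n i j‖ ≤ ‖x n i j‖ + ‖a n i j - x n i j‖ := by
          have := norm_add_le (x n i j) (a n i j - x n i j)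
          rwa [add_sub_cancel] at this
        have h7 : ‖a n i j‖ ^ 2 ≤ (‖x n i j‖ + ‖a n i j - x n i j‖) ^ 2 :=
          pow_le_pow_left₀ (norm_nonneg _) h6 2
        nlinarith [sq_nonneg (‖x n i j‖ - ‖a n i j - x n i j‖)]
      refine (sum_le_sum fun j _ => h5 j).trans ?_
      rw [sum_add_distrib, ← mul_sum, ← mul_sum]
      have h6 := (h2 n hn).row (by positivity) i
      have h7 : ∑ j, ‖a n i j - x n i j‖ ^ 2 ≤ (C + K₁) * (y / n) * C ^ 2 := by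
        have h8 : ∀ j, ‖a n i j - x n i j‖ ^ 2 ≤ (C + K₁) * (y / n) * ‖a n i j - x n i j‖ := by
          intro j
          rw [sq]
          refine mul_le_mul_of_nonneg_right ?_ (norm_nonneg _)
          refine (norm_sub_le _ _).trans ?_
          have e1 := h4 n hn i j
          have e2 := (h2 n hn).entry (by positivity) i j
          calc ‖a n i j‖ + ‖x n i j‖ ≤ C * y / n + K₁ * y / n := add_le_add e1 e2
            _ = (C + K₁) * (y / n) := by ring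
        refine (sum_le_sum fun j _ => h8 j).trans ?_
        rw [← mul_sum]
        exact mul_le_mul_of_nonneg_left (hrow2 n hn) (by positivity)
      have h9 : (K₁ * y / n) ^ 2 ≤ K₁ ^ 2 * (y / n) := by
        have e1 : (K₁ * y / n) ^ 2 = K₁ ^ 2 * (y / n) * (y / n) := by ring
        rw [e1]
        exact mul_le_of_le_one_right (by positivity) hyn
      have h10 : K₃ * y / n = C ^ 2 * (y / n) + 2 * (K₁ ^ 2 * (y / n)) +
          2 * ((C + K₁) * (y / n) * C ^ 2) := by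
        rw [hK₃]
        ring
      rw [h10]
      have h11 : 0 ≤ C ^ 2 * (y / n) := by positivity
      linarith
  -- the end
  have hn0 : (0 : ℝ) < n := by exact_mod_cast hn
  refine (hrow n hn).trans ?_
  have h5 : ∑ b ∈ Icc 1 (n - 1), Real.sqrt (∑ j, ‖a b i j‖ ^ 2) *
      Real.sqrt (∑ j, ‖a (n - b) i j‖ ^ 2) ≤
      ∑ b ∈ Icc 1 (n - 1), K₃ * y * (1 / (Real.sqrt b * Real.sqrt ((n - b : ℕ) : ℝ))) := by
    refine sum_le_sum fun b hb => ?_
    rw [mem_Icc] at hb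
    have e0 : (0 : ℝ) ≤ K₃ * y := by positivity
    have e1 : Real.sqrt (∑ j, ‖a b i j‖ ^ 2) ≤ Real.sqrt (K₃ * y) / Real.sqrt b := by
      rw [← Real.sqrt_div e0]
      exact Real.sqrt_le_sqrt (hsq b hb.1)
    have e2 : Real.sqrt (∑ j, ‖a (n - b) i j‖ ^ 2) ≤
        Real.sqrt (K₃ * y) / Real.sqrt ((n - b : ℕ) : ℝ) := by
      rw [← Real.sqrt_div e0]
      exact Real.sqrt_le_sqrt (hsq (n - b) (by omega))
    calc _ ≤ Real.sqrt (K₃ * y) / Real.sqrt b * (Real.sqrt (K₃ * y) / Real.sqrt ((n - b : ℕ) : ℝ)) :=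
          mul_le_mul e1 e2 (Real.sqrt_nonneg _) (by positivity)
      _ = (Real.sqrt (K₃ * y) * Real.sqrt (K₃ * y)) *
          (1 / (Real.sqrt b * Real.sqrt ((n - b : ℕ) : ℝ))) := by
          rw [div_mul_div_comm]
          ring
      _ = _ := by rw [Real.mul_self_sqrt e0]
  rw [← mul_sum] at h5
  have h6 := sum_conv hn
  have h7 : ∑ b ∈ Icc 1 (n - 1), Real.sqrt (∑ j, ‖a b i j‖ ^ 2) *
      Real.sqrt (∑ j, ‖a (n - b) i j‖ ^ 2) ≤ K₃ * y * 4 :=
    h5.trans (mul_le_mul_of_nonneg_left h6 (by positivity))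
  rw [← hK₃, one_div, inv_mul_eq_div]
  apply div_le_div_of_nonneg_right _ hn0.le
  linarith

/-- the matrix lemma, abstract form -/
theorem core {a x : ℕ → ι → ι → ℂ} {C K₁ : ℝ} {y : ℕ} (hC : 0 < C) (hK : 0 < K₁) (hy : 1 ≤ y)
    (h1 : ∀ n : ℕ, 1 ≤ n → ∀ i j, (n : ℂ) * a n i j = (n : ℂ) * x n i j -
      ∑ b ∈ Icc 1 (n - 1), a b i j * a (n - b) i j)
    (h2 : ∀ n : ℕ, 1 ≤ n → Bd (x n) (K₁ * y / n)) (h3 : ∀ n : ℕ, 1 ≤ n → Bd (a n) C)
    (h4 : ∀ n : ℕ, 1 ≤ n → ∀ i j, ‖a n i j‖ ≤ C * y / n) (n : ℕ) (hn : 1 ≤ n) :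
    Bd (a n) ((K₁ + 4 * (C ^ 2 + 2 * K₁ ^ 2 + 2 * (C + K₁) * C ^ 2)) * y / n) := by
  have r1 := fun i => rows hC hK hy h1 h2 h3 h4 n hn i
  have r2 := fun j => rows (a := fun n i j => a n j i) (x := fun n i j => x n j i) hC hK hy
    (fun n hn i j => h1 n hn j i) (fun n hn => (h2 n hn).swap) (fun n hn => (h3 n hn).swap)
    (fun n hn i j => h4 n hn j i) n hn j
  have h5 : Bd (fun i j => a n i j - x n i j)
      (4 * (C ^ 2 + 2 * K₁ ^ 2 + 2 * (C + K₁) * C ^ 2) * y / n) := by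
    refine schur (by positivity) r1 fun j => ?_
    exact r2 j
  have h6 := (h2 n hn).add h5
  have h7 : (fun i j => x n i j + (a n i j - x n i j)) = a n := by
    funext i j
    ring
  rw [h7] at h6
  refine h6.mono (le_of_eq ?_)
  ring

end Pool.Agent.Q222.PSC
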