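import Pool.Agent.Q284.PS.Stm
import Pool.Agent.Q222.PSC.OPMg
import Pool.Agent.Q222.PSC.EXPG

/-!
# Project PS, job LOW: the lower bound
-/

set_option autoImplicit false

open Finset Filter Topology

namespace Pool.Agent.Q222.PSC

theorem le_exp_mul {x : ℝ} (hx : 0 ≤ x) : x * Real.exp (-x) ≤ 1 := by
  have h1 := Real.add_one_le_exp x
  calc x * Real.exp (-x) ≤ Real.exp x * Real.exp (-x) :=
        mul_le_mul_of_nonneg_right (by linarith) (Real.exp_pos _).le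
    _ = 1 := by rw [← Real.exp_add, add_neg_cancel, Real.exp_zero]

theorem sum_n_exp {c y : ℝ} (hc : 0 < c) (hy : 0 < y) (N : ℕ) :
    ∑ a ∈ Icc 1 N, (a : ℝ) * Real.exp (-(c * a / y)) ≤ 4 * (y / c) ^ 2 := by
  have h1 : ∀ a ∈ Icc 1 N, (a : ℝ) * Real.exp (-(c * a / y)) ≤
      2 * (y / c) * Real.exp (-(c / (2 * y) * a)) := by
    intro a _
    have h2 := le_exp_mul (x := c / (2 * y) * a) (by positivity)
    have h3 : Real.exp (-(c * a / y)) = Real.exp (-(c / (2 * y) * a)) * Real.exp (-(c / (2 * y) * a)) := by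
      rw [← Real.exp_add]
      congr 1
      field_simp
      ring
    rw [h3, ← mul_assoc]
    refine mul_le_mul_of_nonneg_right ?_ (Real.exp_pos _).le
    have h4 : (a : ℝ) = 2 * (y / c) * (c / (2 * y) * a) := by
      field_simp
    calc (a : ℝ) * Real.exp (-(c / (2 * y) * a)) =
          2 * (y / c) * ((c / (2 * y) * a) * Real.exp (-(c / (2 * y) * a))) := by
          conv_lhs => rw [h4]
          field_simp
      _ ≤ 2 * (y / c) * 1 := mul_le_mul_of_nonneg_left h2 (by positivity)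
      _ = _ := mul_one _
  refine (sum_le_sum h1).trans ?_
  rw [← mul_sum]
  have h4 := sum_exp_le (τ := c / (2 * y)) (by positivity) N
  have h5 : (0 : ℝ) ≤ 2 * (y / c) := by positivity
  refine (mul_le_mul_of_nonneg_left h4 h5).trans (le_of_eq ?_)
  field_simp
  norm_num

/-- a series with the first term one -/
theorem Ls_norm_le {r : ℕ → ℂ} {b : ℕ → ℝ} {B : ℝ} {z : ℂ} (hr0 : ‖r 0‖ ≤ 1) (hz : ‖z‖ ≤ 1)
    (hs : Summable fun k => ‖r k * z ^ k‖) (hb : ∀ k, 1 ≤ k → ‖r k‖ * ‖z‖ ^ k ≤ b k)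
    (hB : ∀ N, ∑ k ∈ Icc 1 N, b k ≤ B) : ‖Ls r z‖ ≤ 1 + B := by
  unfold Ls
  refine (norm_tsum_le_tsum_norm hs).trans ?_
  refine Real.tsum_le_of_sum_range_le (fun _ => norm_nonneg _) fun N => ?_
  have e2 : ∑ k ∈ range N, ‖r k * z ^ k‖ ≤ ∑ k ∈ range (N + 1), ‖r k * z ^ k‖ :=
    sum_le_sum_of_subset_of_nonneg (range_subset_range.2 (Nat.le_succ N)) fun _ _ _ => norm_nonneg _
  refine e2.trans ?_
  have e3 : range (N + 1) = insert 0 (Icc 1 N) := by
    ext k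
    rw [mem_range, mem_insert, mem_Icc]
    omega
  rw [e3, sum_insert (by simp)]
  refine add_le_add ?_ ((sum_le_sum fun k hk => ?_).trans (hB N))
  · rw [pow_zero, mul_one]
    exact hr0
  · rw [norm_mul, norm_pow]
    exact hb k (mem_Icc.1 hk).1

/-- the positivity -/
theorem three_four_one {a1 : ℕ → ℝ} {a2 a3 : ℕ → ℂ} {C : ℝ}
    (hC : ∀ k : ℕ, |a1 k| ≤ C ∧ ‖a2 k‖ ≤ C ∧ ‖a3 k‖ ≤ C)
    (hpos : ∀ (k : ℕ) (w : ℂ), ‖w‖ = 1 → 0 ≤ 3 * a1 k + 4 * (a2 k * w).re + (a3 k * w ^ 2).re)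
    {t : ℝ} (ht0 : 0 ≤ t) (ht1 : t < 1) {w : ℂ} (hw : ‖w‖ = 1) :
    0 ≤ 3 * (Ls (fun k => ((a1 k : ℝ) : ℂ) / k) (t : ℂ)).re + 4 * (Ls (fun k => a2 k / k) (t * w)).re +
      (Ls (fun k => a3 k / k) (t * w ^ 2)).re := by
  have hM : 0 ≤ C := (abs_nonneg _).trans (hC 0).1
  have hg : ∀ (a : ℕ → ℂ), (∀ k, ‖a k‖ ≤ C) → ∀ k : ℕ, ‖a k / (k : ℂ)‖ ≤ C := by
    intro a ha k
    rcases Nat.eq_zero_or_pos k with h | h
    · rw [h]
      simpa using hM
    · rw [norm_div, Complex.norm_natCast]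
      have : (1 : ℝ) ≤ k := by exact_mod_cast h
      exact (div_le_self (norm_nonneg _) this).trans (ha k)
  have n1 : ‖(t : ℂ)‖ < 1 := by rwa [Complex.norm_real, Real.norm_of_nonneg ht0]
  have n2 : ‖(t : ℂ) * w‖ < 1 := by rw [norm_mul, hw, mul_one]; exact n1
  have n3 : ‖(t : ℂ) * w ^ 2‖ < 1 := by rw [norm_mul, norm_pow, hw, one_pow, mul_one]; exact n1
  have s1 := (Ls_summable (hg (fun k => ((a1 k : ℝ) : ℂ)) (fun k => by
    rw [Complex.norm_real]
    exact (hC k).1)) n1).of_norm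
  have s2 := (Ls_summable (hg a2 fun k => (hC k).2.1) n2).of_norm
  have s3 := (Ls_summable (hg a3 fun k => (hC k).2.2) n3).of_norm
  have r1 := Complex.hasSum_re s1.hasSum
  have r2 := Complex.hasSum_re s2.hasSum
  have r3 := Complex.hasSum_re s3.hasSum
  have hsum := ((r1.mul_left 3).add (r2.mul_left 4)).add r3
  refine hsum.nonneg fun k => ?_
  rcases Nat.eq_zero_or_pos k with h | h
  · rw [h]
    simp
  · have hk0 : (0 : ℝ) < k := by exact_mod_cast h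
    have hwk : ‖w ^ k‖ = 1 := by rw [norm_pow, hw, one_pow]
    have h4 := hpos k (w ^ k) hwk
    have e1 : (((a1 k : ℝ) : ℂ) / k * (t : ℂ) ^ k).re = t ^ k / k * a1 k := by
      have : ((a1 k : ℝ) : ℂ) / k * (t : ℂ) ^ k = ((t ^ k / k * a1 k : ℝ) : ℂ) := by
        push_cast
        ring
      rw [this, Complex.ofReal_re]
    have e2 : (a2 k / k * ((t : ℂ) * w) ^ k).re = t ^ k / k * (a2 k * w ^ k).re := by
      have : a2 k / k * ((t : ℂ) * w) ^ k = ((t ^ k / k : ℝ) : ℂ) * (a2 k * w ^ k) := by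
        push_cast
        ring
      rw [this, Complex.re_ofReal_mul]
    have e3 : (a3 k / k * ((t : ℂ) * w ^ 2) ^ k).re = t ^ k / k * (a3 k * (w ^ k) ^ 2).re := by
      have : a3 k / k * ((t : ℂ) * w ^ 2) ^ k = ((t ^ k / k : ℝ) : ℂ) * (a3 k * (w ^ k) ^ 2) := by
        push_cast
        ring
      rw [this, Complex.re_ofReal_mul]
    rw [e1, e2, e3]
    have h5 : 0 ≤ t ^ k / k := by positivity
    nlinarith

/-- JOB PS-LOW. -/
theorem t_LOW : Pool.Agent.Q284.PS.S_LOW := by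
  intro C c hC hc
  obtain ⟨D, hD⟩ : ∃ D : ℝ, D = 4 * C / c ^ 2 := ⟨_, rfl⟩
  have hD0 : 0 < D := by rw [hD]; positivity
  obtain ⟨K₃, hK₃⟩ : ∃ K₃ : ℝ, K₃ = 1 + C / c := ⟨_, rfl⟩
  have hK30 : 0 < K₃ := by rw [hK₃]; positivity
  obtain ⟨Q, hQ⟩ : ∃ Q : ℝ, Q = (2 * D) ^ 4 * (1 + C) ^ 3 * K₃ := ⟨_, rfl⟩
  have hQ0 : 0 < Q := by rw [hQ]; positivity
  obtain ⟨κ, hκ⟩ : ∃ κ : ℝ, κ = min (1 / 2) (1 / Q) := ⟨_, rfl⟩
  have hκ0 : 0 < κ := by rw [hκ]; exact lt_min (by norm_num) (by positivity)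
  have hκ2 : κ ≤ 1 / 2 := by rw [hκ]; exact min_le_left _ _
  have hκQ : κ * Q ≤ 1 := by
    have : κ ≤ 1 / Q := by rw [hκ]; exact min_le_right _ _
    rwa [le_div_iff₀ hQ0] at this
  refine ⟨D * κ, by positivity, ?_⟩
  intro y r1 a1 r2 r3 a2 a3 hy h10 h20 h30 hr1 hr23 ha hrec1 hrec2 hrec3 hpos
  have hy1 : (1 : ℝ) ≤ y := by exact_mod_cast hy
  have hy0 : (0 : ℝ) < y := by linarith
  have hCy : C / y ≤ C := div_le_self hC.le hy1
  have hexp1 : ∀ k : ℕ, Real.exp (-(c * k / y)) ≤ 1 := by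
    intro k
    rw [Real.exp_le_one_iff, neg_nonpos]
    positivity
  have hCe : ∀ k : ℕ, C / y * Real.exp (-(c * k / y)) ≤ C := by
    intro k
    have e4 : (0 : ℝ) ≤ C / y := by positivity
    have := mul_le_mul_of_nonneg_left (hexp1 k) e4
    linarith
  -- uniform bounds
  have M1 : ∀ k, ‖((r1 k : ℝ) : ℂ)‖ ≤ 1 + C := by
    intro k
    rw [Complex.norm_real, Real.norm_eq_abs]
    rcases Nat.eq_zero_or_pos k with h | h
    · rw [h, h10, abs_one]
      linarith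
    · rw [abs_of_nonneg (hr1 k h).1]
      linarith [(hr1 k h).2]
  have M2 : ∀ k, ‖r2 k‖ ≤ 1 + C := by
    intro k
    rcases Nat.eq_zero_or_pos k with h | h
    · rw [h, h20, norm_one]
      linarith
    · linarith [(hr23 k h).1, hCe k]
  have M3 : ∀ k, ‖r3 k‖ ≤ 1 + C := by
    intro k
    rcases Nat.eq_zero_or_pos k with h | h
    · rw [h, h30, norm_one]
      linarith
    · linarith [(hr23 k h).2, hCe k]
  have A1 : ∀ k, ‖((a1 k : ℝ) : ℂ)‖ ≤ 1 + C := by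
    intro k
    rw [Complex.norm_real, Real.norm_eq_abs]
    linarith [(ha k).1]
  have A2 : ∀ k, ‖a2 k‖ ≤ 1 + C := fun k => by linarith [(ha k).2.1]
  have A3 : ∀ k, ‖a3 k‖ ≤ 1 + C := fun k => by linarith [(ha k).2.2]
  have hrec1' : ∀ n : ℕ, 1 ≤ n → (n : ℂ) * ((r1 n : ℝ) : ℂ) =
      ∑ j ∈ Icc 1 n, ((a1 j : ℝ) : ℂ) * ((r1 (n - j) : ℝ) : ℂ) := by
    intro n hn
    have := hrec1 n hn
    exact_mod_cast this
  have h10' : ((r1 0 : ℝ) : ℂ) = 1 := by rw [h10]; norm_num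
  -- the product
  have hprod : ∀ (t : ℝ) (w : ℂ), 0 ≤ t → t < 1 → ‖w‖ = 1 →
      1 ≤ ‖Ls (fun k => ((r1 k : ℝ) : ℂ)) t‖ ^ 3 * ‖Ls r2 (t * w)‖ ^ 4 * ‖Ls r3 (t * w ^ 2)‖ := by
    intro t w ht0 ht1 hw
    have n1 : ‖(t : ℂ)‖ < 1 := by rwa [Complex.norm_real, Real.norm_of_nonneg ht0]
    have n2 : ‖(t : ℂ) * w‖ < 1 := by rw [norm_mul, hw, mul_one]; exact n1
    have n3 : ‖(t : ℂ) * w ^ 2‖ < 1 := by rw [norm_mul, norm_pow, hw, one_pow, mul_one]; exact n1
    rw [← exp_formula M1 A1 h10' hrec1' n1, ← exp_formula M2 A2 h20 hrec2 n2,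
      ← exp_formula M3 A3 h30 hrec3 n3, Complex.norm_exp, Complex.norm_exp, Complex.norm_exp,
      ← Real.exp_nat_mul, ← Real.exp_nat_mul, ← Real.exp_add, ← Real.exp_add]
    apply Real.one_le_exp
    have := three_four_one (C := C) ha hpos ht0 ht1 hw
    push_cast
    linarith
  -- the bound for the third factor
  have hL3 : ∀ z : ℂ, ‖z‖ < 1 → ‖Ls r3 z‖ ≤ K₃ := by
    intro z hz
    rw [hK₃]
    refine Ls_norm_le (by rw [h30, norm_one]) hz.le (Ls_summable M3 hz)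
      (b := fun k => C / y * Real.exp (-(c / y * k))) (fun k hk => ?_) (fun N => ?_)
    · have h1 := (hr23 k hk).2
      have h2 : ‖z‖ ^ k ≤ 1 := pow_le_one₀ (norm_nonneg _) hz.le
      have h3 : c * k / y = c / y * k := by ring
      rw [h3] at h1
      have h4 : ‖r3 k‖ * ‖z‖ ^ k ≤ ‖r3 k‖ * 1 := mul_le_mul_of_nonneg_left h2 (norm_nonneg _)
      rw [mul_one] at h4
      exact h4.trans h1
    · rw [← mul_sum]
      have h1 := sum_exp_le (τ := c / y) (by positivity) N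
      refine (mul_le_mul_of_nonneg_left h1 (by positivity)).trans (le_of_eq ?_)
      field_simp
  -- the bound for the first factor
  have hL1 : ∀ t : ℝ, 0 ≤ t → t ≤ 1 - κ / y → ‖Ls (fun k => ((r1 k : ℝ) : ℂ)) t‖ ≤ 1 + C / κ := by
    intro t ht0 ht
    have hκy : 0 < κ / y := by positivity
    have ht1 : t < 1 := by linarith
    have n1 : ‖(t : ℂ)‖ < 1 := by rwa [Complex.norm_real, Real.norm_of_nonneg ht0]
    refine Ls_norm_le (by rw [h10']; simp) n1.le (Ls_summable M1 n1)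
      (b := fun k => C / y * t ^ k) (fun k hk => ?_) (fun N => ?_)
    · rw [Complex.norm_real, Complex.norm_real, Real.norm_of_nonneg ht0, Real.norm_of_nonneg (hr1 k hk).1]
      exact mul_le_mul_of_nonneg_right (hr1 k hk).2 (by positivity)
    · rw [← mul_sum]
      have h1 : ∑ k ∈ Icc 1 N, t ^ k ≤ 1 / (1 - t) := by
        have h2 : ∑ k ∈ Icc 1 N, t ^ k ≤ ∑ k ∈ range (N + 1), t ^ k := by
          refine sum_le_sum_of_subset_of_nonneg (fun k hk => ?_) fun _ _ _ => by positivity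
          rw [mem_Icc] at hk
          rw [mem_range]
          omega
        refine h2.trans ?_
        have h3 := (summable_geometric_of_lt_one ht0 ht1).sum_le_tsum (range (N + 1))
          fun _ _ => by positivity
        rw [tsum_geometric_of_lt_one ht0 ht1] at h3
        rw [one_div]
        exact h3
      have h4 : 1 / (1 - t) ≤ y / κ := by
        rw [div_le_div_iff₀ (by linarith) hκ0]
        have h5 : κ / y ≤ 1 - t := by linarith
        rw [div_le_iff₀ hy0] at h5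
        linarith
      refine (mul_le_mul_of_nonneg_left (h1.trans h4) (by positivity)).trans (le_of_eq ?_)
      field_simp
  -- inside
  have hin : ∀ z : ℂ, ‖z‖ ≤ 1 - κ / y → 2 * (D * κ) ≤ ‖Ls r2 z‖ := by
    intro z hz
    have hκy : 0 < κ / y := by positivity
    obtain ⟨w, hw, hzw⟩ : ∃ w : ℂ, ‖w‖ = 1 ∧ z = (‖z‖ : ℂ) * w := by
      by_cases h : z = 0
      · exact ⟨1, norm_one, by rw [h]; simp⟩
      · refine ⟨z / (‖z‖ : ℂ), ?_, ?_⟩
        · rw [norm_div, Complex.norm_real, norm_norm, div_self (norm_ne_zero_iff.2 h)]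
        · rw [mul_div_cancel₀]
          exact_mod_cast norm_ne_zero_iff.2 h
    have hz1 : ‖z‖ < 1 := by linarith
    have h1 := hprod ‖z‖ w (norm_nonneg z) hz1 hw
    rw [← hzw] at h1
    have h2 := hL1 ‖z‖ (norm_nonneg z) hz
    have h3 := hL3 ((‖z‖ : ℂ) * w ^ 2) (by
      rw [norm_mul, norm_pow, hw, one_pow, mul_one, Complex.norm_real, norm_norm]
      exact hz1)
    by_contra hcon
    rw [not_le] at hcon
    have h4 : ‖Ls r2 z‖ ^ 4 < (2 * (D * κ)) ^ 4 := pow_lt_pow_left₀ hcon (norm_nonneg _) (by norm_num)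
    have h5 : ‖Ls (fun k => ((r1 k : ℝ) : ℂ)) (‖z‖ : ℂ)‖ ^ 3 ≤ (1 + C / κ) ^ 3 :=
      pow_le_pow_left₀ (norm_nonneg _) h2 3
    have h6 : (0 : ℝ) < (1 + C / κ) ^ 3 := by positivity
    have h7 : ‖Ls (fun k => ((r1 k : ℝ) : ℂ)) (‖z‖ : ℂ)‖ ^ 3 * ‖Ls r2 z‖ ^ 4 *
        ‖Ls r3 ((‖z‖ : ℂ) * w ^ 2)‖ ≤ (1 + C / κ) ^ 3 * ‖Ls r2 z‖ ^ 4 * K₃ :=
      mul_le_mul (mul_le_mul_of_nonneg_right h5 (by positivity)) h3 (norm_nonneg _) (by positivity)
    have h8 : (1 + C / κ) ^ 3 * ‖Ls r2 z‖ ^ 4 * K₃ < (1 + C / κ) ^ 3 * (2 * (D * κ)) ^ 4 * K₃ :=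
      mul_lt_mul_of_pos_right (mul_lt_mul_of_pos_left h4 h6) hK30
    have h9 : (1 + C / κ) ^ 3 * (2 * (D * κ)) ^ 4 * K₃ = (κ + C) ^ 3 * (2 * D) ^ 4 * K₃ * κ := by
      field_simp
    have h10 : (κ + C) ^ 3 ≤ (1 + C) ^ 3 := pow_le_pow_left₀ (by positivity) (by linarith) 3
    have h11 : (κ + C) ^ 3 * (2 * D) ^ 4 * K₃ * κ ≤ (1 + C) ^ 3 * (2 * D) ^ 4 * K₃ * κ := by
      have : (0 : ℝ) ≤ (2 * D) ^ 4 * K₃ * κ := by positivity
      nlinarith
    have h12 : (1 + C) ^ 3 * (2 * D) ^ 4 * K₃ * κ = κ * Q := by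
      rw [hQ]
      ring
    linarith
  -- the difference
  have hdiff : ∀ z z' : ℂ, ‖z‖ < 1 → ‖z'‖ < 1 → ‖z - z'‖ ≤ κ / y → ‖Ls r2 z - Ls r2 z'‖ ≤ D * κ := by
    intro z z' hz hz' hzz
    have s1 := (Ls_summable M2 hz).of_norm
    have s2 := (Ls_summable M2 hz').of_norm
    have e1 : Ls r2 z - Ls r2 z' = ∑' k, (r2 k * z ^ k - r2 k * z' ^ k) := by
      unfold Ls
      rw [s1.tsum_sub s2]
    have e2 : ∀ k, ‖r2 k * z ^ k - r2 k * z' ^ k‖ ≤ ‖r2 k‖ * (k * ‖z - z'‖) := by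
      intro k
      rw [← mul_sub, norm_mul]
      refine mul_le_mul_of_nonneg_left ?_ (norm_nonneg _)
      induction k with
      | zero => simp
      | succ k ih =>
        have e3 : z ^ (k + 1) - z' ^ (k + 1) = z ^ k * (z - z') + (z ^ k - z' ^ k) * z' := by ring
        rw [e3]
        refine (norm_add_le _ _).trans ?_
        rw [norm_mul, norm_mul, norm_pow]
        have e4 : ‖z‖ ^ k ≤ 1 := pow_le_one₀ (norm_nonneg _) hz.le
        have e5 := mul_le_mul_of_nonneg_right e4 (norm_nonneg (z - z'))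
        have e6 := mul_le_mul_of_nonneg_left hz'.le (norm_nonneg (z ^ k - z' ^ k))
        push_cast
        linarith
    have s3 : Summable fun k => ‖r2 k * z ^ k - r2 k * z' ^ k‖ := by
      refine Summable.of_nonneg_of_le (fun _ => norm_nonneg _) (fun k => norm_sub_le _ _)
        ((Ls_summable M2 hz).add (Ls_summable M2 hz'))
    rw [e1]
    refine (norm_tsum_le_tsum_norm s3).trans ?_
    refine Real.tsum_le_of_sum_range_le (fun _ => norm_nonneg _) fun N => ?_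
    have e7 : ∑ k ∈ range N, ‖r2 k * z ^ k - r2 k * z' ^ k‖ ≤
        ∑ k ∈ Icc 1 N, C / y * (κ / y) * ((k : ℝ) * Real.exp (-(c * k / y))) := by
      have e8 : ∑ k ∈ range N, ‖r2 k * z ^ k - r2 k * z' ^ k‖ ≤
          ∑ k ∈ range (N + 1), ‖r2 k * z ^ k - r2 k * z' ^ k‖ :=
        sum_le_sum_of_subset_of_nonneg (range_subset_range.2 (Nat.le_succ N)) fun _ _ _ => norm_nonneg _
      refine e8.trans ?_
      have e9 : range (N + 1) = insert 0 (Icc 1 N) := by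
        ext k
        rw [mem_range, mem_insert, mem_Icc]
        omega
      rw [e9, sum_insert (by simp)]
      simp only [pow_zero, sub_self, norm_zero, zero_add]
      refine sum_le_sum fun k hk => ?_
      refine (e2 k).trans ?_
      have e10 := (hr23 k (mem_Icc.1 hk).1).1
      have e11 : (k : ℝ) * ‖z - z'‖ ≤ k * (κ / y) := mul_le_mul_of_nonneg_left hzz (Nat.cast_nonneg k)
      calc ‖r2 k‖ * (k * ‖z - z'‖) ≤ (C / y * Real.exp (-(c * k / y))) * (k * (κ / y)) :=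
            mul_le_mul e10 e11 (by positivity) (by positivity)
        _ = _ := by ring
    refine e7.trans ?_
    rw [← mul_sum]
    have e12 := sum_n_exp hc hy0 N
    refine (mul_le_mul_of_nonneg_left e12 (by positivity)).trans (le_of_eq ?_)
    rw [hD]
    field_simp
  intro z hz
  show D * κ ≤ ‖Ls r2 z‖
  have hDκ : 0 < D * κ := by positivity
  have hκy : 0 < κ / y := by positivity
  have hκy2 : κ / y ≤ 1 / 2 := (div_le_self hκ0.le hy1).trans hκ2
  rcases le_or_gt ‖z‖ (1 - κ / y) with h | h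
  · linarith [hin z h]
  · have hz0 : 0 < ‖z‖ := by linarith
    have hzc : ((‖z‖ : ℝ) : ℂ) ≠ 0 := by exact_mod_cast hz0.ne'
    obtain ⟨z', hz'⟩ : ∃ z' : ℂ, z' = (((1 - κ / y) / ‖z‖ : ℝ) : ℂ) * z := ⟨_, rfl⟩
    have h1 : ‖z'‖ = 1 - κ / y := by
      rw [hz', norm_mul, Complex.norm_real, Real.norm_of_nonneg (div_nonneg (by linarith) hz0.le)]
      field_simp
    have h2 : ‖z - z'‖ ≤ κ / y := by
      have e1 : z - z' = (((‖z‖ - (1 - κ / y)) / ‖z‖ : ℝ) : ℂ) * z := by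
        rw [hz']
        push_cast
        field_simp
      rw [e1, norm_mul, Complex.norm_real, Real.norm_of_nonneg (div_nonneg (by linarith) hz0.le),
        div_mul_cancel₀ _ hz0.ne']
      linarith
    have h3 := hin z' h1.le
    have h4 := hdiff z z' hz (by rw [h1]; linarith) h2
    have h5 := norm_sub_norm_le (Ls r2 z') (Ls r2 z)
    rw [norm_sub_rev] at h5
    linarith

end Pool.Agent.Q222.PSC
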