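import Pool.Agent.Q284.PS.Stm
import Pool.Agent.Q222.PSC.OPMg

/-!
# Project PS, job OPM: the matrix lemma
-/

set_option autoImplicit false

open Finset ComplexConjugate

namespace Pool.Agent.Q222.PSC

open Pool.Agent.Q284.PS

open Classical in
/-- the off-diagonal part -/
noncomputable def mo {ι : Type} (M : ι → ι → ℂ) (i j : ι) : ℂ := if i = j then 0 else M i j

theorem offF_eq {ι : Type} [Fintype ι] (M : ι → ι → ℂ) (u v : ι → ℂ) : offF M u v = bf (mo M) u v := by
  unfold offF bf mo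
  refine sum_congr rfl fun i _ => sum_congr rfl fun j _ => ?_
  split_ifs
  · ring
  · rfl

theorem bd_iff {ι : Type} [Fintype ι] (M : ι → ι → ℂ) (κ : ℝ) : Bd (mo M) κ ↔
    ∀ u v : ι → ℂ, ‖offF M u v‖ ≤ κ * Real.sqrt (nsq u) * Real.sqrt (nsq v) := by
  unfold Bd
  refine forall_congr' fun u => forall_congr' fun v => ?_
  rw [offF_eq]
  rfl

/-- JOB PS-OPM. -/
theorem t_OPM : S_OPM := by
  intro C c hC hc
  obtain ⟨K₁, hK₁⟩ : ∃ K₁ : ℝ, K₁ = 2 * C / c ^ 2 + 16 * C ^ 2 / c ^ 3 := ⟨_, rfl⟩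
  have hK10 : 0 < K₁ := by
    rw [hK₁]
    positivity
  refine ⟨K₁ + 4 * (C ^ 2 + 2 * K₁ ^ 2 + 2 * (C + K₁) * C ^ 2), by positivity, ?_⟩
  intro ι _ y r m A hy h1 h2 h3 h4 h5 h6 n hn
  have hy0 : (0 : ℝ) < y := by exact_mod_cast hy
  obtain ⟨x, hx⟩ : ∃ x : ℕ → ι → ι → ℂ, x = fun (n : ℕ) (i j : ι) => (n : ℂ)⁻¹ *
      ∑ a ∈ Icc 1 n, (a : ℂ) ^ 2 * mo (fun i j => r a i j * m (n - a) i j) i j := ⟨_, rfl⟩
  rw [← bd_iff]
  refine core (a := fun n => mo (A n)) (x := x) hC hK10 hy ?_ ?_ ?_ ?_ n hn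
  · intro n hn i j
    have hn0 : (n : ℂ) ≠ 0 := by exact_mod_cast (by omega : n ≠ 0)
    rw [hx]
    beta_reduce
    rw [mul_inv_cancel_left₀ hn0]
    unfold mo
    by_cases hij : i = j
    · simp only [if_pos hij, mul_zero, sum_const_zero, sub_zero]
    · simp only [if_neg hij]
      rw [h1 n hn i j hij]
      congr 1
      refine sum_congr rfl fun a _ => ?_
      ring
  · intro n hn
    have hn0 : (0 : ℝ) < n := by exact_mod_cast hn
    have hterm : ∀ a ∈ Icc 1 n, Bd (fun i j => (a : ℂ) ^ 2 *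
        mo (fun i j => r a i j * m (n - a) i j) i j)
        (‖(a : ℂ) ^ 2‖ * (C / y * Real.exp (-(c * a / y)) * (if a = n then 1 else C / y))) := by
      intro a ha
      rw [mem_Icc] at ha
      refine Bd.smul ?_ _
      by_cases han : a = n
      · rw [if_pos han, mul_one, han, Nat.sub_self]
        have e1 : (fun i j => r n i j * m 0 i j) = r n := by
          funext i j
          rw [h2 i j, mul_one]
        rw [e1, bd_iff]
        exact h3 n hn
      · rw [if_neg han, bd_iff]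
        exact h4 a (n - a) ha.1 (by omega)
    have hsum := (Bd.sum (Icc 1 n) hterm).smul ((n : ℂ)⁻¹)
    have e2 : (fun i j => (n : ℂ)⁻¹ * ∑ a ∈ Icc 1 n, (a : ℂ) ^ 2 *
        mo (fun i j => r a i j * m (n - a) i j) i j) = x n := by
      rw [hx]
    rw [e2] at hsum
    refine hsum.mono ?_
    have h7 : ∑ a ∈ Icc 1 n, ‖(a : ℂ) ^ 2‖ * (C / y * Real.exp (-(c * a / y)) *
        (if a = n then 1 else C / y)) ≤ K₁ * y := by
      have h8 : ∀ a ∈ Icc 1 n, ‖(a : ℂ) ^ 2‖ * (C / y * Real.exp (-(c * a / y)) *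
          (if a = n then 1 else C / y)) ≤
          (if a = n then C / y * ((a : ℝ) ^ 2 * Real.exp (-(c * a / y))) else 0) +
          (C / y) ^ 2 * ((a : ℝ) ^ 2 * Real.exp (-(c * a / y))) := by
        intro a _
        rw [norm_pow, Complex.norm_natCast]
        split_ifs with han
        · have : 0 ≤ (C / y) ^ 2 * ((a : ℝ) ^ 2 * Real.exp (-(c * a / y))) := by positivity
          nlinarith
        · rw [zero_add]
          exact le_of_eq (by ring)
      refine (sum_le_sum h8).trans ?_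
      rw [sum_add_distrib, sum_ite_eq', if_pos (mem_Icc.2 ⟨hn, le_rfl⟩), ← mul_sum]
      have h9 := n_sq_exp hc hy0 n
      have h10 := sum_sq_exp hc hy0 n
      have h11 : C / y * ((n : ℝ) ^ 2 * Real.exp (-(c * n / y))) ≤ C / y * (2 * (y / c) ^ 2) :=
        mul_le_mul_of_nonneg_left h9 (by positivity)
      have h12 : (C / y) ^ 2 * ∑ a ∈ Icc 1 n, (a : ℝ) ^ 2 * Real.exp (-(c * a / y)) ≤
          (C / y) ^ 2 * (16 * (y / c) ^ 3) := mul_le_mul_of_nonneg_left h10 (by positivity)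
      refine (add_le_add h11 h12).trans (le_of_eq ?_)
      rw [hK₁]
      field_simp
    rw [norm_inv, Complex.norm_natCast, inv_mul_eq_div]
    exact div_le_div_of_nonneg_right h7 hn0.le
  · intro n hn
    show Bd (mo (A n)) C
    rw [bd_iff]
    exact h5 n hn
  · intro n hn i j
    show ‖mo (A n) i j‖ ≤ C * y / n
    unfold mo
    split_ifs with hij
    · rw [norm_zero]
      positivity
    · exact h6 n hn i j hij

end Pool.Agent.Q222.PSC
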