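import Mathlib

/-!
# Project PS: Parseval's identity for power series and a consequence
-/

set_option autoImplicit false

open Finset Filter Topology MeasureTheory

namespace Pool.Agent.Q222.PSC

/-- the measure of the circle -/
noncomputable def mc : Measure UnitAddCircle := AddCircle.haarAddCircle

instance : IsProbabilityMeasure mc := by
  unfold mc
  infer_instance

theorem int_fou (n : ℤ) : ∫ t : UnitAddCircle, fourier n t ∂mc = if n = 0 then 1 else 0 := by
  have h := (orthonormal_iff_ite.mp (orthonormal_fourier (T := 1))) 0 n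
  simp only [ContinuousMap.inner_toLp, ← fourier_neg, ← fourier_add] at h
  simp only [neg_zero, add_zero] at h
  unfold mc
  rw [show (∫ t : UnitAddCircle, fourier n t ∂AddCircle.haarAddCircle) =
    (if 0 = n then 1 else 0) from h]
  simp only [eq_comm]

theorem fou_norm (n : ℤ) (θ : UnitAddCircle) : ‖fourier n θ‖ = 1 := by
  rw [fourier_apply]
  exact Circle.norm_coe _

theorem cic {F : UnitAddCircle → ℂ} (h : Continuous F) : Integrable F mc :=
  h.integrable_of_hasCompactSupport (HasCompactSupport.of_compactSpace F)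

theorem cir {F : UnitAddCircle → ℝ} (h : Continuous F) : Integrable F mc :=
  h.integrable_of_hasCompactSupport (HasCompactSupport.of_compactSpace F)

/-- the function with the coefficients `b` -/
noncomputable def Fc (b : ℕ → ℂ) (θ : UnitAddCircle) : ℂ := ∑' k : ℕ, b k * fourier (k : ℤ) θ

theorem Fc_cont {b : ℕ → ℂ} (hb : Summable fun k => ‖b k‖) : Continuous (Fc b) := by
  unfold Fc
  refine continuous_tsum (fun k => by fun_prop) hb fun k θ => ?_
  rw [norm_mul, fou_norm, mul_one]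

theorem Fc_coef {b : ℕ → ℂ} (hb : Summable fun k => ‖b k‖) (n : ℕ) :
    ∫ θ, fourier (-(n : ℤ)) θ * Fc b θ ∂mc = b n := by
  have h1 := hasSum_integral_of_summable_integral_norm (μ := mc)
    (F := fun (k : ℕ) θ => fourier (-(n : ℤ)) θ * (b k * fourier (k : ℤ) θ))
    (fun k => cic (by fun_prop)) (by
      refine Summable.of_nonneg_of_le (fun z => integral_nonneg fun θ => norm_nonneg _) (fun z => ?_) hb
      refine (integral_mono (cir (by fun_prop)) (integrable_const ‖b z‖) fun θ => ?_).trans ?_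
      · simp only [norm_mul, fou_norm, one_mul, mul_one]
        exact le_rfl
      · simp)
  have h2 : ∀ θ, ∑' k : ℕ, fourier (-(n : ℤ)) θ * (b k * fourier (k : ℤ) θ) =
      fourier (-(n : ℤ)) θ * Fc b θ := fun θ => tsum_mul_left
  simp only [h2] at h1
  have h3 : ∀ k : ℕ, ∫ θ, fourier (-(n : ℤ)) θ * (b k * fourier (k : ℤ) θ) ∂mc =
      if k = n then b k else 0 := by
    intro k
    have h4 : ∀ θ : UnitAddCircle, fourier (-(n : ℤ)) θ * (b k * fourier (k : ℤ) θ) =
        b k * fourier (-(n : ℤ) + k) θ := by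
      intro θ
      rw [fourier_add]
      ring
    simp only [h4]
    rw [integral_const_mul, int_fou]
    by_cases h5 : k = n
    · rw [if_pos h5, if_pos (by rw [h5]; simp), mul_one]
    · rw [if_neg h5, if_neg, mul_zero]
      intro h6
      exact h5 (by omega)
  simp only [h3] at h1
  have h7 := h1.tsum_eq
  rw [tsum_ite_eq] at h7
  exact h7.symm

/-- **Parseval** -/
theorem pars1 {b : ℕ → ℂ} (hb : Summable fun k => ‖b k‖) :
    ∫ θ, ‖Fc b θ‖ ^ 2 ∂mc = ∑' k, ‖b k‖ ^ 2 := by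
  have hc := Fc_cont hb
  obtain ⟨M, hM⟩ : ∃ M : ℝ, M = ∑' k, ‖b k‖ := ⟨_, rfl⟩
  have hFM : ∀ θ, ‖Fc b θ‖ ≤ M := by
    intro θ
    unfold Fc
    rw [hM]
    refine tsum_of_norm_bounded hb.hasSum fun k => ?_
    rw [norm_mul, fou_norm, mul_one]
  have h1 := hasSum_integral_of_summable_integral_norm (μ := mc)
    (F := fun (k : ℕ) θ => (starRingEnd ℂ) (b k) * (fourier (-(k : ℤ)) θ * Fc b θ))
    (fun k => cic (by fun_prop)) (by
      refine Summable.of_nonneg_of_le (fun z => integral_nonneg fun θ => norm_nonneg _) (fun z => ?_)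
        (hb.mul_right M)
      refine (integral_mono (cir (by fun_prop)) (integrable_const (‖b z‖ * M)) fun θ => ?_).trans ?_
      · simp only [norm_mul, fou_norm, one_mul, Complex.norm_conj]
        exact mul_le_mul_of_nonneg_left (hFM θ) (norm_nonneg _)
      · simp)
  have h2 : ∀ θ, ∑' k : ℕ, (starRingEnd ℂ) (b k) * (fourier (-(k : ℤ)) θ * Fc b θ) =
      ((‖Fc b θ‖ ^ 2 : ℝ) : ℂ) := by
    intro θ
    have h3 : ∀ k : ℕ, (starRingEnd ℂ) (b k) * (fourier (-(k : ℤ)) θ * Fc b θ) =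
        (starRingEnd ℂ) (b k * fourier (k : ℤ) θ) * Fc b θ := by
      intro k
      rw [map_mul, ← fourier_neg]
      ring
    simp only [h3]
    rw [tsum_mul_right]
    have h4 : ∑' k : ℕ, (starRingEnd ℂ) (b k * fourier (k : ℤ) θ) = (starRingEnd ℂ) (Fc b θ) := by
      unfold Fc
      exact (Complex.conj_tsum _).symm
    rw [h4, Complex.conj_mul']
    push_cast
    ring
  simp only [h2] at h1
  have h5 : ∀ k : ℕ, ∫ θ, (starRingEnd ℂ) (b k) * (fourier (-(k : ℤ)) θ * Fc b θ) ∂mc =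
      ((‖b k‖ ^ 2 : ℝ) : ℂ) := by
    intro k
    rw [integral_const_mul, Fc_coef hb, Complex.conj_mul']
    push_cast
    ring
  simp only [h5] at h1
  rw [integral_complex_ofReal] at h1
  have h6 := (Complex.hasSum_ofReal.1 h1).tsum_eq
  exact h6.symm

/-- the values -/
theorem Fc_val (b : ℕ → ℂ) (ρ : ℝ) (θ : UnitAddCircle) :
    Fc (fun k => b k * (ρ : ℂ) ^ k) θ = ∑' k : ℕ, b k * ((ρ : ℂ) * fourier 1 θ) ^ k := by
  unfold Fc
  refine tsum_congr fun k => ?_
  have h1 : (fourier (k : ℤ) θ : ℂ) = (fourier 1 θ : ℂ) ^ k := by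
    rw [fourier_apply, fourier_apply, one_smul, AddCircle.toCircle_zsmul, zpow_natCast]
    push_cast
    rfl
  rw [h1, mul_pow]
  ring

/-- a lower bound of a factor on the disc, in the mean -/
theorem par_le {w r s : ℕ → ℂ} {c₁ S : ℝ} (hc₁ : 0 < c₁)
    (hw : ∀ ρ : ℝ, 0 ≤ ρ → ρ < 1 → Summable fun k => ‖w k‖ * ρ ^ k)
    (hr : ∀ ρ : ℝ, 0 ≤ ρ → ρ < 1 → Summable fun k => ‖r k‖ * ρ ^ k)
    (hs : ∀ n, s n = ∑ p ∈ antidiagonal n, w p.1 * r p.2)
    (hL : ∀ z : ℂ, ‖z‖ < 1 → c₁ ≤ ‖∑' k : ℕ, r k * z ^ k‖)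
    (hS : ∀ N, ∑ k ∈ range N, ‖s k‖ ^ 2 ≤ S) (N : ℕ) :
    ∑ k ∈ range N, ‖w k‖ ^ 2 ≤ S / c₁ ^ 2 := by
  have key : ∀ ρ : ℝ, 0 ≤ ρ → ρ < 1 → ∑ k ∈ range N, ‖w k‖ ^ 2 * (ρ ^ k) ^ 2 ≤ S / c₁ ^ 2 := by
    intro ρ h0 h1
    have nrm : ∀ (b : ℕ → ℂ) (k : ℕ), ‖b k * (ρ : ℂ) ^ k‖ = ‖b k‖ * ρ ^ k := by
      intro b k
      rw [norm_mul, norm_pow, Complex.norm_real, Real.norm_of_nonneg h0]
    have sw : Summable fun k => ‖w k * (ρ : ℂ) ^ k‖ := by
      simp only [nrm w]
      exact hw ρ h0 h1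
    have sr : Summable fun k => ‖r k * (ρ : ℂ) ^ k‖ := by
      simp only [nrm r]
      exact hr ρ h0 h1
    have hprod : ∀ θ : UnitAddCircle, Fc (fun k => w k * (ρ : ℂ) ^ k) θ * Fc (fun k => r k * (ρ : ℂ) ^ k) θ =
        Fc (fun k => s k * (ρ : ℂ) ^ k) θ := by
      intro θ
      unfold Fc
      rw [tsum_mul_tsum_eq_tsum_sum_antidiagonal_of_summable_norm]
      · refine tsum_congr fun n => ?_
        beta_reduce
        rw [hs, sum_mul, sum_mul]
        refine sum_congr rfl fun p hp => ?_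
        rw [HasAntidiagonal.mem_antidiagonal] at hp
        rw [← hp, pow_add]
        push_cast
        rw [fourier_add]
        ring
      · simpa only [norm_mul, fou_norm, mul_one] using sw
      · simpa only [norm_mul, fou_norm, mul_one] using sr
    have ss : Summable fun k => ‖s k * (ρ : ℂ) ^ k‖ := by
      have h2 := summable_norm_sum_mul_antidiagonal_of_summable_norm sw sr
      refine h2.congr fun n => ?_
      congr 1
      rw [hs, sum_mul]
      refine sum_congr rfl fun p hp => ?_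
      rw [HasAntidiagonal.mem_antidiagonal] at hp
      rw [← hp, pow_add]
      ring
    have hlow : ∀ θ : UnitAddCircle, c₁ ≤ ‖Fc (fun k => r k * (ρ : ℂ) ^ k) θ‖ := by
      intro θ
      rw [Fc_val]
      refine hL _ ?_
      rw [norm_mul, fou_norm, mul_one, Complex.norm_real, Real.norm_of_nonneg h0]
      exact h1
    have hint : c₁ ^ 2 * ∫ θ, ‖Fc (fun k => w k * (ρ : ℂ) ^ k) θ‖ ^ 2 ∂mc ≤
        ∫ θ, ‖Fc (fun k => s k * (ρ : ℂ) ^ k) θ‖ ^ 2 ∂mc := by
      rw [← integral_const_mul]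
      have cw := Fc_cont sw
      have cs := Fc_cont ss
      refine integral_mono (cir (by fun_prop)) (cir (by fun_prop)) fun θ => ?_
      beta_reduce
      rw [← hprod, norm_mul, mul_pow, mul_comm]
      refine mul_le_mul_of_nonneg_left ?_ (sq_nonneg _)
      exact pow_le_pow_left₀ hc₁.le (hlow θ) 2
    rw [pars1 sw, pars1 ss] at hint
    have hsS : ∑' k, ‖s k * (ρ : ℂ) ^ k‖ ^ 2 ≤ S := by
      refine Real.tsum_le_of_sum_range_le (fun _ => sq_nonneg _) fun M => ?_
      refine le_trans (sum_le_sum fun k _ => ?_) (hS M)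
      refine pow_le_pow_left₀ (norm_nonneg _) ?_ 2
      rw [nrm s]
      exact mul_le_of_le_one_right (norm_nonneg _) (pow_le_one₀ h0 h1.le)
    have hwS : ∑ k ∈ range N, ‖w k‖ ^ 2 * (ρ ^ k) ^ 2 ≤ ∑' k, ‖w k * (ρ : ℂ) ^ k‖ ^ 2 := by
      have hsum : Summable fun k => ‖w k * (ρ : ℂ) ^ k‖ ^ 2 := by
        have h2 : ∀ᶠ k in atTop, ‖w k * (ρ : ℂ) ^ k‖ ≤ 1 :=
          (sw.tendsto_atTop_zero.eventually (ge_mem_nhds one_pos))
        refine Summable.of_norm_bounded_eventually_nat sw ?_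
        filter_upwards [h2] with k hk
        rw [Real.norm_of_nonneg (sq_nonneg _), sq]
        exact mul_le_of_le_one_right (norm_nonneg _) hk
      refine le_trans (le_of_eq ?_) (hsum.sum_le_tsum (range N) fun _ _ => sq_nonneg _)
      refine sum_congr rfl fun k _ => ?_
      rw [nrm w, mul_pow]
    rw [le_div_iff₀ (by positivity)]
    nlinarith
  have hlim : Tendsto (fun ρ : ℝ => ∑ k ∈ range N, ‖w k‖ ^ 2 * (ρ ^ k) ^ 2) (𝓝[<] 1)
      (𝓝 (∑ k ∈ range N, ‖w k‖ ^ 2)) := by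
    have hcont : Continuous fun ρ : ℝ => ∑ k ∈ range N, ‖w k‖ ^ 2 * (ρ ^ k) ^ 2 := by fun_prop
    have h2 := (hcont.tendsto 1).mono_left (nhdsWithin_le_nhds (s := Set.Iio (1 : ℝ)))
    simpa using h2
  refine le_of_tendsto hlim ?_
  have h3 : ∀ᶠ ρ : ℝ in 𝓝[<] 1, 0 < ρ := by
    refine (nhdsWithin_le_nhds (s := Set.Iio (1 : ℝ))) ?_
    exact lt_mem_nhds one_pos
  filter_upwards [h3, self_mem_nhdsWithin] with ρ h4 h5
  exact key ρ h4.le h5

end Pool.Agent.Q222.PSC
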