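import Pool.Agent.Q284.PS.Stm
import Pool.Agent.Q222.PSC.OPMg
import Pool.Agent.Q222.PSC.PAR

/-!
# Project PS, job PWA: the analytic lemma
-/

set_option autoImplicit false

open Finset

namespace Pool.Agent.Q222.PSC

/-- a sum over the antidiagonal without the first term -/
theorem anti_Icc (a r : ℕ → ℂ) (n : ℕ) :
    ∑ p ∈ antidiagonal n, (if p.1 = 0 then 0 else a p.1) * r p.2 = ∑ j ∈ Icc 1 n, a j * r (n - j) := by
  rw [Finset.Nat.sum_antidiagonal_eq_sum_range_succ (fun i j => (if i = 0 then 0 else a i) * r j)]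
  have hsub : Icc 1 n ⊆ range n.succ := by
    intro j hj
    rw [mem_Icc] at hj
    rw [mem_range]
    omega
  rw [← sum_subset hsub]
  · refine sum_congr rfl fun j hj => ?_
    rw [mem_Icc] at hj
    rw [if_neg (by omega)]
  · intro j hj hj'
    rw [mem_range] at hj
    rw [mem_Icc] at hj'
    rw [if_pos (by omega), zero_mul]

/-- the convolution identities -/
theorem conv_ids {r a : ℕ → ℂ}
    (h : ∀ n : ℕ, 1 ≤ n → (n : ℂ) * r n = ∑ j ∈ Icc 1 n, a j * r (n - j)) :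
    (∀ n : ℕ, (n : ℂ) * r n = ∑ p ∈ antidiagonal n, (if p.1 = 0 then 0 else a p.1) * r p.2) ∧
    ∀ n : ℕ, (n : ℂ) ^ 2 * r n = ∑ p ∈ antidiagonal n,
      ((p.1 : ℂ) * (if p.1 = 0 then 0 else a p.1) + ∑ q ∈ antidiagonal p.1,
        (if q.1 = 0 then 0 else a q.1) * (if q.2 = 0 then 0 else a q.2)) * r p.2 := by
  obtain ⟨b, hb⟩ : ∃ b : ℕ → ℂ, b = fun j => if j = 0 then 0 else a j := ⟨_, rfl⟩
  have h1 : ∀ n : ℕ, (n : ℂ) * r n = ∑ p ∈ antidiagonal n, b p.1 * r p.2 := by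
    intro n
    rw [hb]
    rw [anti_Icc]
    rcases Nat.eq_zero_or_pos n with h0 | h0
    · rw [h0]
      simp
    · exact h n h0
  obtain ⟨R, hR⟩ : ∃ R : PowerSeries ℂ, R = PowerSeries.mk r := ⟨_, rfl⟩
  obtain ⟨A, hA⟩ : ∃ A : PowerSeries ℂ, A = PowerSeries.mk b := ⟨_, rfl⟩
  obtain ⟨DR, hDR⟩ : ∃ DR : PowerSeries ℂ, DR = PowerSeries.mk fun n => (n : ℂ) * r n := ⟨_, rfl⟩
  obtain ⟨DA, hDA⟩ : ∃ DA : PowerSeries ℂ, DA = PowerSeries.mk fun n => (n : ℂ) * b n := ⟨_, rfl⟩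
  obtain ⟨D2, hD2⟩ : ∃ D2 : PowerSeries ℂ, D2 = PowerSeries.mk fun n => (n : ℂ) ^ 2 * r n := ⟨_, rfl⟩
  have e1 : DR = A * R := by
    ext n
    rw [PowerSeries.coeff_mul, hDR, hA, hR, PowerSeries.coeff_mk, h1]
    refine sum_congr rfl fun p _ => ?_
    rw [PowerSeries.coeff_mk, PowerSeries.coeff_mk]
  have e2 : D2 = DA * R + A * DR := by
    ext n
    rw [map_add, PowerSeries.coeff_mul, PowerSeries.coeff_mul, ← sum_add_distrib, hD2,
      PowerSeries.coeff_mk, sq, mul_assoc, h1, mul_sum]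
    refine sum_congr rfl fun p hp => ?_
    rw [HasAntidiagonal.mem_antidiagonal] at hp
    rw [hDA, hR, hA, hDR, PowerSeries.coeff_mk, PowerSeries.coeff_mk, PowerSeries.coeff_mk,
      PowerSeries.coeff_mk, ← hp]
    push_cast
    ring
  have e3 : D2 = (DA + A * A) * R := by
    rw [e2, e1]
    ring
  refine ⟨fun n => by rw [h1, hb], fun n => ?_⟩
  have e4 := congrArg (PowerSeries.coeff n) e3
  rw [hD2, PowerSeries.coeff_mk, PowerSeries.coeff_mul] at e4
  rw [e4]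
  refine sum_congr rfl fun p _ => ?_
  rw [map_add, PowerSeries.coeff_mul, hDA, hA, hR, PowerSeries.coeff_mk, PowerSeries.coeff_mk]
  congr 2
  · rw [hb]
  · refine sum_congr rfl fun q _ => ?_
    rw [PowerSeries.coeff_mk, PowerSeries.coeff_mk, hb]

/-- the sum of the squares of a convolution -/
theorem conv_cs (f g : ℕ → ℂ) (n : ℕ) : ‖∑ p ∈ antidiagonal n, f p.1 * g p.2‖ ≤
    Real.sqrt (∑ k ∈ range (n + 1), ‖f k‖ ^ 2) * Real.sqrt (∑ k ∈ range (n + 1), ‖g k‖ ^ 2) := by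
  rw [Finset.Nat.sum_antidiagonal_eq_sum_range_succ (fun i j => f i * g j)]
  refine (norm_sum_le _ _).trans ?_
  have e : ∀ k ∈ range n.succ, ‖f k * g (n - k)‖ = ‖f k‖ * ‖g (n - k)‖ := fun k _ => norm_mul _ _
  rw [sum_congr rfl e]
  refine (Real.sum_mul_le_sqrt_mul_sqrt _ _ _).trans (le_of_eq ?_)
  congr 2
  exact Finset.sum_range_reflect (fun k => ‖g k‖ ^ 2) (n + 1)

/-- JOB PS-PWA. -/
theorem t_PWA : Pool.Agent.Q284.PS.S_PWA := by
  intro C c c₁ hC hc hc₁
  refine ⟨2 * C / c ^ 2 + 4 * C ^ 2 / (c ^ 3 * c₁) + 2 * C ^ 2 / (c ^ 3 * c₁ ^ 2), by positivity, ?_⟩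
  intro y r a hy hr0 hr ha hrec hL n hn
  have hy0 : (0 : ℝ) < y := by exact_mod_cast hy
  have hy1 : (1 : ℝ) ≤ y := by exact_mod_cast hy
  obtain ⟨h1, h2⟩ := conv_ids hrec
  obtain ⟨b, hb⟩ : ∃ b : ℕ → ℂ, b = fun j => if j = 0 then 0 else a j := ⟨_, rfl⟩
  obtain ⟨w, hw⟩ : ∃ w : ℕ → ℂ, w = fun (n : ℕ) => (n : ℂ) * b n + ∑ q ∈ antidiagonal n, b q.1 * b q.2 :=
    ⟨_, rfl⟩
  have hb' : ∀ j, b j = if j = 0 then 0 else a j := fun j => by rw [hb]
  have h1' : ∀ n : ℕ, (n : ℂ) * r n = ∑ p ∈ antidiagonal n, b p.1 * r p.2 := by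
    intro n
    rw [h1]
    exact sum_congr rfl fun p _ => by rw [hb']
  have h2' : ∀ n : ℕ, (n : ℂ) ^ 2 * r n = ∑ p ∈ antidiagonal n, w p.1 * r p.2 := by
    intro n
    rw [h2]
    refine sum_congr rfl fun p _ => ?_
    rw [hw]
    beta_reduce
    rw [hb']
    congr 2
    exact sum_congr rfl fun q _ => by rw [hb', hb']
  have hbC : ∀ k, ‖b k‖ ≤ C := by
    intro k
    rw [hb']
    split_ifs
    · rw [norm_zero]
      exact hC.le
    · exact ha k
  have hrC : ∀ k, ‖r k‖ ≤ 1 + C := by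
    intro k
    rcases Nat.eq_zero_or_pos k with h0 | h0
    · rw [h0, hr0, norm_one]
      linarith
    · refine (hr k h0).trans ?_
      have e1 : C / y ≤ C := div_le_self hC.le hy1
      have e2 : Real.exp (-(c * k / y)) ≤ 1 := by
        rw [Real.exp_le_one_iff, neg_nonpos]
        positivity
      have e3 : 0 < Real.exp (-(c * k / y)) := Real.exp_pos _
      have e4 : (0 : ℝ) ≤ C / y := by positivity
      nlinarith
  have hwC : ∀ k, ‖w k‖ ≤ (C + C ^ 2) * ((k : ℝ) + 1) := by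
    intro k
    rw [hw]
    beta_reduce
    refine (norm_add_le _ _).trans ?_
    rw [norm_mul, Complex.norm_natCast]
    have e1 : ‖∑ q ∈ antidiagonal k, b q.1 * b q.2‖ ≤ ∑ q ∈ antidiagonal k, C ^ 2 := by
      refine (norm_sum_le _ _).trans (sum_le_sum fun q _ => ?_)
      rw [norm_mul, sq]
      exact mul_le_mul (hbC _) (hbC _) (norm_nonneg _) hC.le
    rw [sum_const, Finset.Nat.card_antidiagonal, nsmul_eq_mul] at e1
    push_cast at e1
    have e2 : (k : ℝ) * ‖b k‖ ≤ k * C := mul_le_mul_of_nonneg_left (hbC k) (Nat.cast_nonneg k)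
    nlinarith
  have geo : ∀ ρ : ℝ, 0 ≤ ρ → ρ < 1 → Summable fun k : ℕ => ρ ^ k := fun ρ h0 h1 =>
    summable_geometric_of_lt_one h0 h1
  have geo1 : ∀ ρ : ℝ, 0 ≤ ρ → ρ < 1 → Summable fun k : ℕ => ((k : ℝ) + 1) * ρ ^ k := by
    intro ρ h0 h1
    have e1 := summable_pow_mul_geometric_of_norm_lt_one (R := ℝ) 1 (r := ρ)
      (by rwa [Real.norm_of_nonneg h0])
    refine (e1.add (geo ρ h0 h1)).congr fun k => ?_
    ring
  have sb : ∀ ρ : ℝ, 0 ≤ ρ → ρ < 1 → Summable fun k => ‖b k‖ * ρ ^ k := fun ρ h0 h1 =>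
    Summable.of_nonneg_of_le (fun k => by positivity)
      (fun k => mul_le_mul_of_nonneg_right (hbC k) (by positivity)) ((geo ρ h0 h1).mul_left C)
  have sr : ∀ ρ : ℝ, 0 ≤ ρ → ρ < 1 → Summable fun k => ‖r k‖ * ρ ^ k := fun ρ h0 h1 =>
    Summable.of_nonneg_of_le (fun k => by positivity)
      (fun k => mul_le_mul_of_nonneg_right (hrC k) (by positivity)) ((geo ρ h0 h1).mul_left (1 + C))
  have sw : ∀ ρ : ℝ, 0 ≤ ρ → ρ < 1 → Summable fun k => ‖w k‖ * ρ ^ k := fun ρ h0 h1 =>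
    Summable.of_nonneg_of_le (fun k => by positivity)
      (fun k => (mul_le_mul_of_nonneg_right (hwC k) (by positivity)).trans
        (le_of_eq (mul_assoc _ _ _))) ((geo1 ρ h0 h1).mul_left (C + C ^ 2))
  -- squares of the coefficients
  have hr2 : ∀ k : ℕ, 1 ≤ k → ‖r k‖ ^ 2 ≤ (C / y) ^ 2 * Real.exp (-(2 * c * k / y)) := by
    intro k hk
    have e1 := pow_le_pow_left₀ (norm_nonneg _) (hr k hk) 2
    refine e1.trans (le_of_eq ?_)
    rw [mul_pow, ← Real.exp_nat_mul]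
    congr 2
    push_cast
    ring
  have hS1 : ∀ N, ∑ k ∈ range N, ‖(k : ℂ) * r k‖ ^ 2 ≤ 2 * C ^ 2 * y / c ^ 3 := by
    intro N
    have e1 : ∑ k ∈ range N, ‖(k : ℂ) * r k‖ ^ 2 ≤
        ∑ k ∈ Icc 1 N, (C / y) ^ 2 * ((k : ℝ) ^ 2 * Real.exp (-(2 * c * k / y))) := by
      have e2 : ∑ k ∈ range N, ‖(k : ℂ) * r k‖ ^ 2 ≤ ∑ k ∈ range (N + 1), ‖(k : ℂ) * r k‖ ^ 2 :=
        sum_le_sum_of_subset_of_nonneg (range_subset_range.2 (Nat.le_succ N)) fun _ _ _ => sq_nonneg _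
      refine e2.trans ?_
      have hsub : Icc 1 N ⊆ range (N + 1) := by
        intro j hj
        rw [mem_Icc] at hj
        rw [mem_range]
        omega
      rw [← sum_subset hsub]
      · refine sum_le_sum fun k hk => ?_
        rw [mem_Icc] at hk
        rw [norm_mul, mul_pow, Complex.norm_natCast]
        have := mul_le_mul_of_nonneg_left (hr2 k hk.1) (sq_nonneg (k : ℝ))
        refine this.trans (le_of_eq ?_)
        ring
      · intro j hj hj'
        rw [mem_range] at hj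
        rw [mem_Icc] at hj'
        have : j = 0 := by omega
        rw [this]
        simp
    refine e1.trans ?_
    rw [← mul_sum]
    have e3 := sum_sq_exp (c := 2 * c) (by positivity) hy0 N
    refine (mul_le_mul_of_nonneg_left e3 (by positivity)).trans (le_of_eq ?_)
    field_simp
    norm_num
  have hS2 : ∀ N, ∑ k ∈ range N, ‖(k : ℂ) ^ 2 * r k‖ ^ 2 ≤ 32 * C ^ 2 * y ^ 3 / c ^ 5 := by
    intro N
    have e1 : ∑ k ∈ range N, ‖(k : ℂ) ^ 2 * r k‖ ^ 2 ≤
        ∑ k ∈ Icc 1 N, (C / y) ^ 2 * (2 * (y / c) ^ 2) * ((k : ℝ) ^ 2 * Real.exp (-(c * k / y))) := by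
      have e2 : ∑ k ∈ range N, ‖(k : ℂ) ^ 2 * r k‖ ^ 2 ≤
          ∑ k ∈ range (N + 1), ‖(k : ℂ) ^ 2 * r k‖ ^ 2 :=
        sum_le_sum_of_subset_of_nonneg (range_subset_range.2 (Nat.le_succ N)) fun _ _ _ => sq_nonneg _
      refine e2.trans ?_
      have hsub : Icc 1 N ⊆ range (N + 1) := by
        intro j hj
        rw [mem_Icc] at hj
        rw [mem_range]
        omega
      rw [← sum_subset hsub]
      · refine sum_le_sum fun k hk => ?_
        rw [mem_Icc] at hk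
        rw [norm_mul, mul_pow, norm_pow, Complex.norm_natCast]
        have e4 := mul_le_mul_of_nonneg_left (hr2 k hk.1) (sq_nonneg ((k : ℝ) ^ 2))
        refine e4.trans ?_
        have e5 := n_sq_exp hc hy0 k
        have e6 : Real.exp (-(2 * c * k / y)) = Real.exp (-(c * k / y)) * Real.exp (-(c * k / y)) := by
          rw [← Real.exp_add]
          congr 1
          ring
        rw [e6]
        have e7 : 0 ≤ (C / y) ^ 2 * ((k : ℝ) ^ 2 * Real.exp (-(c * k / y))) := by positivity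
        have e8 := mul_le_mul_of_nonneg_left e5 e7
        calc ((k : ℝ) ^ 2) ^ 2 * ((C / y) ^ 2 * (Real.exp (-(c * k / y)) * Real.exp (-(c * k / y)))) =
              (C / y) ^ 2 * ((k : ℝ) ^ 2 * Real.exp (-(c * k / y))) *
                ((k : ℝ) ^ 2 * Real.exp (-(c * k / y))) := by ring
          _ ≤ _ := e8
          _ = _ := by ring
      · intro j hj hj'
        rw [mem_range] at hj
        rw [mem_Icc] at hj'
        have : j = 0 := by omega
        rw [this]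
        simp
    refine e1.trans ?_
    rw [← mul_sum]
    have e3 := sum_sq_exp hc hy0 N
    refine (mul_le_mul_of_nonneg_left e3 (by positivity)).trans (le_of_eq ?_)
    field_simp
    norm_num
  have hS0 : ∑ k ∈ Icc 1 n, ‖r k‖ ^ 2 ≤ C ^ 2 / (2 * c * y) := by
    have e1 : ∑ k ∈ Icc 1 n, ‖r k‖ ^ 2 ≤ ∑ k ∈ Icc 1 n, (C / y) ^ 2 * Real.exp (-(2 * c / y * k)) := by
      refine sum_le_sum fun k hk => ?_
      rw [mem_Icc] at hk
      refine (hr2 k hk.1).trans (le_of_eq ?_)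
      congr 3
      ring
    refine e1.trans ?_
    rw [← mul_sum]
    have e3 := sum_exp_le (τ := 2 * c / y) (by positivity) n
    refine (mul_le_mul_of_nonneg_left e3 (by positivity)).trans (le_of_eq ?_)
    field_simp
  -- Parseval
  have p1 := par_le hc₁ sb sr h1' hL hS1
  have p2 := par_le hc₁ sw sr h2' hL hS2
  -- the pointwise bound of `w`
  have hwn : ‖w n‖ ≤ (2 * C / c ^ 2 + 4 * C ^ 2 / (c ^ 3 * c₁)) * y := by
    have e1 := h2' n
    rw [Finset.Nat.sum_antidiagonal_eq_sum_range_succ (fun i j => w i * r j), sum_range_succ,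
      Nat.sub_self, hr0, mul_one] at e1
    have e2 : w n = (n : ℂ) ^ 2 * r n - ∑ k ∈ range n, w k * r (n - k) := by rw [e1]; ring
    rw [e2]
    refine (norm_sub_le _ _).trans ?_
    have e3 : ‖(n : ℂ) ^ 2 * r n‖ ≤ 2 * C / c ^ 2 * y := by
      rw [norm_mul, norm_pow, Complex.norm_natCast]
      have e4 := mul_le_mul_of_nonneg_left (hr n hn) (sq_nonneg (n : ℝ))
      refine e4.trans ?_
      have e5 := mul_le_mul_of_nonneg_left (n_sq_exp hc hy0 n) (by positivity : 0 ≤ C / y)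
      calc (n : ℝ) ^ 2 * (C / y * Real.exp (-(c * n / y))) =
            C / y * ((n : ℝ) ^ 2 * Real.exp (-(c * n / y))) := by ring
        _ ≤ _ := e5
        _ = _ := by
            field_simp
    have e6 : ‖∑ k ∈ range n, w k * r (n - k)‖ ≤ 4 * C ^ 2 / (c ^ 3 * c₁) * y := by
      refine (norm_sum_le _ _).trans ?_
      rw [sum_congr rfl fun k _ => norm_mul (w k) (r (n - k))]
      refine (Real.sum_mul_le_sqrt_mul_sqrt _ _ _).trans ?_
      have e7 : ∑ k ∈ range n, ‖r (n - k)‖ ^ 2 = ∑ k ∈ Icc 1 n, ‖r k‖ ^ 2 := by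
        refine sum_nbij' (fun k => n - k) (fun k => n - k) ?_ ?_ ?_ ?_ ?_
        · intro k hk
          rw [mem_range] at hk
          rw [mem_Icc]
          omega
        · intro k hk
          rw [mem_Icc] at hk
          rw [mem_range]
          omega
        · intro k hk
          rw [mem_range] at hk
          show n - (n - k) = k
          omega
        · intro k hk
          rw [mem_Icc] at hk
          show n - (n - k) = k
          omega
        · intro k _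
          rfl
      rw [e7]
      have e8 : Real.sqrt (∑ k ∈ range n, ‖w k‖ ^ 2) * Real.sqrt (∑ k ∈ Icc 1 n, ‖r k‖ ^ 2) ≤
          Real.sqrt (32 * C ^ 2 * y ^ 3 / c ^ 5 / c₁ ^ 2) * Real.sqrt (C ^ 2 / (2 * c * y)) :=
        mul_le_mul (Real.sqrt_le_sqrt (p2 n)) (Real.sqrt_le_sqrt hS0) (Real.sqrt_nonneg _)
          (Real.sqrt_nonneg _)
      refine e8.trans (le_of_eq ?_)
      rw [← Real.sqrt_mul (by positivity)]
      have e9 : 32 * C ^ 2 * (y : ℝ) ^ 3 / c ^ 5 / c₁ ^ 2 * (C ^ 2 / (2 * c * y)) =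
          (4 * C ^ 2 / (c ^ 3 * c₁) * y) ^ 2 := by
        field_simp
        norm_num
      rw [e9, Real.sqrt_sq (by positivity)]
    have e10 : (2 * C / c ^ 2 + 4 * C ^ 2 / (c ^ 3 * c₁)) * y =
        2 * C / c ^ 2 * y + 4 * C ^ 2 / (c ^ 3 * c₁) * y := by ring
    rw [e10]
    exact add_le_add e3 e6
  have haa : ‖∑ q ∈ antidiagonal n, b q.1 * b q.2‖ ≤ 2 * C ^ 2 / (c ^ 3 * c₁ ^ 2) * y := by
    refine (conv_cs b b n).trans ?_
    rw [Real.mul_self_sqrt (sum_nonneg fun _ _ => sq_nonneg _)]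
    refine (p1 (n + 1)).trans (le_of_eq ?_)
    field_simp
  have hn0 : (0 : ℝ) < n := by exact_mod_cast hn
  have hfin : (n : ℂ) * a n = w n - ∑ q ∈ antidiagonal n, b q.1 * b q.2 := by
    rw [hw]
    beta_reduce
    rw [hb', if_neg (by omega)]
    ring
  have hnorm : (n : ℝ) * ‖a n‖ ≤ (2 * C / c ^ 2 + 4 * C ^ 2 / (c ^ 3 * c₁)) * y +
      2 * C ^ 2 / (c ^ 3 * c₁ ^ 2) * y := by
    have e1 : (n : ℝ) * ‖a n‖ = ‖(n : ℂ) * a n‖ := by rw [norm_mul, Complex.norm_natCast]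
    rw [e1, hfin]
    exact (norm_sub_le _ _).trans (add_le_add hwn haa)
  rw [le_div_iff₀ hn0]
  linarith

end Pool.Agent.Q222.PSC
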