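import Pool.Agent.Q284.PS.Stm2

/-!
# Project PS, job T2: smooth polynomials
-/

set_option autoImplicit false

open Finset Polynomial
open Pool.Agent.H341R2.Sharp (Mon mem_Mon)

namespace Pool.Agent.Q222.PSC

open Pool.Agent.Q284.PS

/-- sums along an injective choice -/
theorem sum_choice {α β : Type} (X : Finset α) (S : Finset β) (g : α → ℝ) (w : β → ℝ) (m : β → α)
    (hw : ∀ t ∈ S, 0 ≤ w t) (h : ∀ f ∈ X, ∃ t ∈ S, m t = f ∧ w t = g f) :
    ∑ f ∈ X, g f ≤ ∑ t ∈ S, w t := by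
  classical
  have h' : ∀ f : X, ∃ t : β, t ∈ S ∧ m t = f ∧ w t = g f := fun f => by
    obtain ⟨t, h1, h2, h3⟩ := h f f.2
    exact ⟨t, h1, h2, h3⟩
  choose s hs1 hs2 hs3 using h'
  have hinj : Function.Injective s := by
    intro a b hab
    apply Subtype.ext
    rw [← hs2 a, ← hs2 b, hab]
  rw [← Finset.sum_coe_sort X g]
  calc ∑ f : X, g f = ∑ f : X, w (s f) := Finset.sum_congr rfl fun f _ => (hs3 f).symm
    _ = ∑ t ∈ univ.image s, w t := (Finset.sum_image fun a _ b _ hab => hinj hab).symm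
    _ ≤ ∑ t ∈ S, w t := by
        refine Finset.sum_le_sum_of_subset_of_nonneg ?_ fun t ht _ => hw t ht
        intro t ht
        obtain ⟨f, -, rfl⟩ := Finset.mem_image.1 ht
        exact hs1 f

section

variable {F : Type} [Field F]

/-- the splitting -/
theorem split {n : ℕ} (hn : 1 ≤ n) {f : F[X]} (hf : f.Monic) (hd : f.natDegree = n)
    (hs : ∀ P : F[X], P.Monic → Irreducible P → P ∣ f → 2 * P.natDegree ≤ n) :
    (∃ (k : ℕ) (P h : F[X]), P.Monic ∧ Irreducible P ∧ h.Monic ∧ 2 ≤ k ∧ f = P ^ k * h ∧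
      IsCoprime (P ^ k) h ∧ n < 2 * (k * P.natDegree)) ∨
    ∃ f₁ f₂ : F[X], f₁.Monic ∧ f₂.Monic ∧ f = f₁ * f₂ ∧ IsCoprime f₁ f₂ ∧ n ≤ 4 * f₁.natDegree ∧
      4 * f₁.natDegree ≤ 3 * n := by
  classical
  obtain ⟨Q, hQ⟩ : ∃ Q : ℕ → Prop, Q = fun m => ∃ f₁ f₂ : F[X], f₁.Monic ∧ f₂.Monic ∧ f = f₁ * f₂ ∧
    IsCoprime f₁ f₂ ∧ n ≤ 4 * f₁.natDegree ∧ f₁.natDegree = m := ⟨_, rfl⟩
  have hex : ∃ m, Q m := by
    rw [hQ]
    exact ⟨n, f, 1, hf, monic_one, (mul_one f).symm, isCoprime_one_right, by omega, hd⟩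
  have h1 := Nat.find_spec hex
  have hmin : ∀ m, m < Nat.find hex → ¬ Q m := fun m hm => Nat.find_min hex hm
  obtain ⟨m, hm⟩ : ∃ m, m = Nat.find hex := ⟨_, rfl⟩
  rw [← hm] at h1 hmin
  rw [hQ] at h1
  obtain ⟨f₁, f₂, m1, m2, hff, hcop, h4, hdm⟩ := h1
  by_cases h3 : 4 * f₁.natDegree ≤ 3 * n
  · exact Or.inr ⟨f₁, f₂, m1, m2, hff, hcop, h4, h3⟩
  left
  have hnu : ¬ IsUnit f₁ := by
    intro hu
    have := natDegree_eq_zero_of_isUnit hu
    omega
  obtain ⟨P, hPm, hPi, hPd⟩ := exists_monic_irreducible_factor f₁ hnu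
  obtain ⟨k, h, hPh, hf1⟩ := WfDvdMonoid.max_power_factor m1.ne_zero hPi
  have hk : k ≠ 0 := by
    rintro rfl
    rw [pow_zero, one_mul] at hf1
    rw [hf1] at hPd
    exact hPh hPd
  have hPk : (P ^ k).Monic := hPm.pow k
  have hh : h.Monic := by
    have h5 : (P ^ k * h).Monic := by
      rw [← hf1]
      exact m1
    exact hPk.of_mul_monic_left h5
  have hc1 : IsCoprime (P ^ k) h := IsCoprime.pow_left ((Irreducible.coprime_iff_not_dvd hPi).2 hPh)
  have hcop' : IsCoprime (P ^ k * h) f₂ := by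
    rw [← hf1]
    exact hcop
  have hc2 : IsCoprime (P ^ k) f₂ := hcop'.of_mul_left_left
  have hc3 : IsCoprime h f₂ := hcop'.of_mul_left_right
  have hdeg : f₁.natDegree = k * P.natDegree + h.natDegree := by
    rw [hf1, hPk.natDegree_mul hh, natDegree_pow]
  have hPpos : 0 < P.natDegree := hPi.natDegree_pos
  have hkP : 0 < k * P.natDegree := Nat.mul_pos (Nat.pos_of_ne_zero hk) hPpos
  have h6 : ¬ n ≤ 4 * h.natDegree := by
    intro h7
    refine hmin h.natDegree (by omega) ?_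
    rw [hQ]
    refine ⟨h, P ^ k * f₂, hh, hPk.mul m2, ?_, IsCoprime.mul_right hc1.symm hc3, h7, rfl⟩
    rw [hff, hf1]
    ring
  have h7 : n < 2 * (k * P.natDegree) := by omega
  refine ⟨k, P, h * f₂, hPm, hPi, hh.mul m2, ?_, ?_, IsCoprime.mul_right hc1 hc2, h7⟩
  · by_contra hk2
    have hk1 : k = 1 := by omega
    rw [hk1, one_mul] at h7
    have h8 := hs P hPm hPi (hPd.trans ⟨f₂, hff⟩)
    omega
  · rw [hff, hf1]
    ring

variable [Fintype F]

theorem mem_PD {k : ℕ} {P : F[X]} : P ∈ PD F k ↔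
    (P.Monic ∧ P.natDegree ≤ k) ∧ Irreducible P ∧ P.natDegree ∣ k := by
  classical
  unfold PD
  rw [mem_filter, mem_biUnion]
  constructor
  · rintro ⟨⟨i, hi, hP⟩, h1⟩
    rw [mem_range] at hi
    rw [mem_Mon] at hP
    exact ⟨⟨hP.1, by omega⟩, h1⟩
  · rintro ⟨⟨h1, h2⟩, h3⟩
    exact ⟨⟨P.natDegree, mem_range.2 (by omega), mem_Mon.2 ⟨h1, rfl⟩⟩, h3⟩

/-- JOB PS-T2. -/
theorem t2_aux (g : F[X] → ℝ) (hg : NMul g) (n : ℕ) (hn : 1 ≤ n) :
    ∑ f ∈ Sm F n, g f ≤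
    ∑ j ∈ (Icc 1 n).filter (fun j => n < 2 * j),
      (∑ P ∈ (PD F j).filter (fun P => P.natDegree < j), g (P ^ (j / P.natDegree))) *
        ∑ f ∈ Mon F (n - j), g f +
    ∑ i ∈ (Icc 1 n).filter (fun i => n ≤ 4 * i ∧ 4 * i ≤ 3 * n),
      (∑ f ∈ Mon F i, g f) * ∑ f ∈ Mon F (n - i), g f := by
  classical
  have hA : ∑ f ∈ (Sm F n).filter (fun f => ∃ (k : ℕ) (P h : F[X]), P.Monic ∧ Irreducible P ∧ h.Monic ∧
      2 ≤ k ∧ f = P ^ k * h ∧ IsCoprime (P ^ k) h ∧ n < 2 * (k * P.natDegree)), g f ≤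
      ∑ t ∈ ((Icc 1 n).filter (fun j => n < 2 * j)).sigma fun j =>
        ((PD F j).filter (fun P => P.natDegree < j)) ×ˢ (Mon F (n - j)),
        g (t.2.1 ^ (t.1 / t.2.1.natDegree)) * g t.2.2 := by
    refine sum_choice _ _ g _ (fun t => t.2.1 ^ (t.1 / t.2.1.natDegree) * t.2.2) (fun t ht => ?_)
      fun f hf => ?_
    · rw [mem_sigma, mem_product, mem_filter, mem_filter, mem_PD, mem_Mon] at ht
      exact mul_nonneg (hg.nonneg _ (ht.2.1.1.1.1.pow _)) (hg.nonneg _ ht.2.2.1)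
    · rw [mem_filter] at hf
      obtain ⟨hfS, k, P, h, hP, hPi, hh, hk, hfe, hc, hlt⟩ := hf
      have hfn : f.Monic ∧ f.natDegree = n := by
        unfold Sm at hfS
        exact mem_Mon.1 (mem_filter.1 hfS).1
      have hPpos : 0 < P.natDegree := hPi.natDegree_pos
      have hdeg : f.natDegree = k * P.natDegree + h.natDegree := by
        rw [hfe, (hP.pow k).natDegree_mul hh, natDegree_pow]
      have hdiv : k * P.natDegree / P.natDegree = k := Nat.mul_div_cancel k hPpos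
      have h2k : 2 * P.natDegree ≤ k * P.natDegree := Nat.mul_le_mul_right _ hk
      refine ⟨⟨k * P.natDegree, P, h⟩, ?_, ?_, ?_⟩
      · rw [mem_sigma, mem_product, mem_filter, mem_filter, mem_PD, mem_Mon, mem_Icc]
        refine ⟨⟨⟨by dsimp only; omega, by dsimp only; omega⟩, hlt⟩,
          ⟨⟨⟨hP, ?_⟩, hPi, Dvd.intro_left _ rfl⟩, ?_⟩, hh, ?_⟩
        · show P.natDegree ≤ k * P.natDegree
          omega
        · show P.natDegree < k * P.natDegree
          omega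
        · show h.natDegree = n - k * P.natDegree
          omega
      · show P ^ (k * P.natDegree / P.natDegree) * h = f
        rw [hdiv, hfe]
      · show g (P ^ (k * P.natDegree / P.natDegree)) * g h = g f
        rw [hdiv, hfe, hg.mul _ _ (hP.pow k) hh hc]
  have hB : ∑ f ∈ (Sm F n).filter (fun f => ¬ ∃ (k : ℕ) (P h : F[X]), P.Monic ∧ Irreducible P ∧
      h.Monic ∧ 2 ≤ k ∧ f = P ^ k * h ∧ IsCoprime (P ^ k) h ∧ n < 2 * (k * P.natDegree)), g f ≤
      ∑ t ∈ ((Icc 1 n).filter (fun i => n ≤ 4 * i ∧ 4 * i ≤ 3 * n)).sigma fun i =>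
        (Mon F i) ×ˢ (Mon F (n - i)), g t.2.1 * g t.2.2 := by
    refine sum_choice _ _ g _ (fun t => t.2.1 * t.2.2) (fun t ht => ?_) fun f hf => ?_
    · rw [mem_sigma, mem_product, mem_Mon, mem_Mon] at ht
      exact mul_nonneg (hg.nonneg _ ht.2.1.1) (hg.nonneg _ ht.2.2.1)
    · rw [mem_filter] at hf
      obtain ⟨hfS, hno⟩ := hf
      have hfS' := hfS
      unfold Sm at hfS'
      rw [mem_filter, mem_Mon] at hfS'
      rcases split hn hfS'.1.1 hfS'.1.2 hfS'.2 with h | ⟨f₁, f₂, m1, m2, hff, hc, h1, h2⟩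
      · exact absurd h hno
      · have hdeg : f.natDegree = f₁.natDegree + f₂.natDegree := by
          rw [hff, m1.natDegree_mul m2]
        have hfn := hfS'.1.2
        refine ⟨⟨f₁.natDegree, f₁, f₂⟩, ?_, hff.symm, ?_⟩
        · rw [mem_sigma, mem_product, mem_filter, mem_Mon, mem_Mon, mem_Icc]
          refine ⟨⟨⟨by dsimp only; omega, by dsimp only; omega⟩, h1, h2⟩, ⟨m1, rfl⟩, m2, ?_⟩
          show f₂.natDegree = n - f₁.natDegree
          omega
        · show g f₁ * g f₂ = g f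
          rw [hff, hg.mul _ _ m1 m2 hc]
  rw [sum_sigma] at hA hB
  have hA2 : ∑ j ∈ (Icc 1 n).filter (fun j => n < 2 * j),
      ∑ t ∈ ((PD F j).filter (fun P => P.natDegree < j)) ×ˢ (Mon F (n - j)),
        g (t.1 ^ (j / t.1.natDegree)) * g t.2 =
      ∑ j ∈ (Icc 1 n).filter (fun j => n < 2 * j),
      (∑ P ∈ (PD F j).filter (fun P => P.natDegree < j), g (P ^ (j / P.natDegree))) *
        ∑ f ∈ Mon F (n - j), g f := by
    refine sum_congr rfl fun j _ => ?_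
    rw [sum_mul_sum, sum_product]
  have hB2 : ∑ i ∈ (Icc 1 n).filter (fun i => n ≤ 4 * i ∧ 4 * i ≤ 3 * n),
      ∑ t ∈ (Mon F i) ×ˢ (Mon F (n - i)), g t.1 * g t.2 =
      ∑ i ∈ (Icc 1 n).filter (fun i => n ≤ 4 * i ∧ 4 * i ≤ 3 * n),
      (∑ f ∈ Mon F i, g f) * ∑ f ∈ Mon F (n - i), g f := by
    refine sum_congr rfl fun j _ => ?_
    rw [sum_mul_sum, sum_product]
  rw [← hA2, ← hB2, ← sum_filter_add_sum_filter_not (Sm F n) (fun f => ∃ (k : ℕ) (P h : F[X]),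
    P.Monic ∧ Irreducible P ∧ h.Monic ∧ 2 ≤ k ∧ f = P ^ k * h ∧ IsCoprime (P ^ k) h ∧
    n < 2 * (k * P.natDegree))]
  exact add_le_add hA hB

end

/-- JOB PS-T2. -/
theorem t_T2 : S_T2 := fun _ _ _ g hg n hn => t2_aux g hg n hn

end Pool.Agent.Q222.PSC
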